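import Mathlib.Analysis.SpecialFunctions.Pow.Real

namespace Pool.Agent.MP_708e57_al

/-- `alpha k x = ((k+1)! x)^(k/(k+1)) / k!`: if `x = w^(k+1)/(k+1)!` then `alpha k x = w^k/k!`. -/
noncomputable def alpha (k : ℕ) (x : ℝ) : ℝ :=
  (((k + 1).factorial : ℝ) * x) ^ ((k : ℝ) / (k + 1)) / (k.factorial : ℝ)

end Pool.Agent.MP_708e57_al
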