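import Mathlib.Analysis.SpecialFunctions.Pow.Real
import Mathlib.RingTheory.TotallySplit
import Mathlib.RingTheory.Etale.Weakly
import Pool.Agent.MP_708e57_al.Final
import Mathlib.Algebra.Order.Star.Real

-- ======== part 0: formerly Pool.Agent.MP_708e57_al.cf.Greedy
section MrgPart0

-- ======== part 0: formerly Pool.Agent.MP_708e57_al.cf.Sum
section MrgPart0

/-!
Connected sums of inverse systems and the two-variable monomial pieces.
-/

namespace Pool.Agent.MP_708e57_al

open Module Finset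

universe u

lemma rank_le_of_rows {K m m' n : Type*} [Field K] [Finite m] [Finite m'] [Fintype n]
    (M : Matrix m n K) (N : Matrix m' n K) (h : ∀ u, M u = 0 ∨ ∃ c, M u = N c) :
    M.rank ≤ N.rank := by
  rw [Matrix.rank_eq_finrank_span_row, Matrix.rank_eq_finrank_span_row]
  refine Submodule.finrank_mono (Submodule.span_le.2 ?_)
  rintro _ ⟨u, rfl⟩
  rcases h u with h0 | ⟨c, hc⟩
  · change M u ∈ _
    rw [h0]
    exact Submodule.zero_mem _
  · change M u ∈ _
    rw [hc]
    exact Submodule.subset_span ⟨c, rfl⟩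

lemma rank_le_of_support {K m m' n n' : Type*} [Field K] [Fintype m] [Fintype m'] [Fintype n]
    [Fintype n'] (M : Matrix m n K) (a : m' → m) (b : n' → n)
    (h : ∀ u v, M u v ≠ 0 → u ∈ Set.range a ∧ v ∈ Set.range b) :
    M.rank ≤ (M.submatrix a b).rank := by
  have h1 : M.rank ≤ (M.submatrix a id).rank := by
    refine rank_le_of_rows _ _ fun u => ?_
    by_cases hu : u ∈ Set.range a
    · obtain ⟨c, rfl⟩ := hu
      exact Or.inr ⟨c, rfl⟩
    · left
      funext v
      by_contra hc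
      exact hu (h u v hc).1
  refine h1.trans ?_
  rw [← Matrix.rank_transpose, ← Matrix.rank_transpose (M.submatrix a b)]
  refine rank_le_of_rows _ _ fun v => ?_
  by_cases hv : v ∈ Set.range b
  · obtain ⟨c, rfl⟩ := hv
    exact Or.inr ⟨c, rfl⟩
  · left
    funext u
    by_contra hc
    exact hv (h _ v hc).2

lemma rank_blocks {K m m' n n' : Type*} [Field K] [Fintype n] [Fintype n']
    (A : Matrix m n K) (B : Matrix m' n' K) :
    (Matrix.fromBlocks A 0 0 B).rank = A.rank + B.rank := by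
  let e := (LinearEquiv.sumArrowLequivProdArrow m m' K K).symm
  let ψ : (LinearMap.range A.mulVecLin × LinearMap.range B.mulVecLin) →ₗ[K] (m ⊕ m' → K) :=
    e.toLinearMap ∘ₗ LinearMap.prodMap (Submodule.subtype _) (Submodule.subtype _)
  have hinj : Function.Injective ψ := by
    rintro ⟨x, y⟩ ⟨x', y'⟩ hh
    have := e.injective hh
    simp only [LinearMap.prodMap_apply, Submodule.subtype_apply, Prod.mk.injEq] at this
    exact Prod.ext (Subtype.ext this.1) (Subtype.ext this.2)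
  have hr : LinearMap.range ψ = LinearMap.range (Matrix.fromBlocks A 0 0 B).mulVecLin := by
    ext z
    constructor
    · rintro ⟨⟨⟨_, x, rfl⟩, ⟨_, y, rfl⟩⟩, rfl⟩
      refine ⟨Sum.elim x y, ?_⟩
      rw [Matrix.mulVecLin_apply, Matrix.fromBlocks_mulVec]
      funext w
      rcases w with w | w <;> simp [ψ, e]
    · rintro ⟨x, rfl⟩
      refine ⟨(⟨_, x ∘ Sum.inl, rfl⟩, ⟨_, x ∘ Sum.inr, rfl⟩), ?_⟩
      rw [Matrix.mulVecLin_apply (Matrix.fromBlocks A 0 0 B), Matrix.fromBlocks_mulVec]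
      funext w
      rcases w with w | w <;> simp [ψ, e]
  unfold Matrix.rank
  rw [← hr, LinearMap.finrank_range_of_inj hinj, Module.finrank_prod]

/-- The ranks of the catalecticants of some degree `d` form in the lower half of the degrees. -/
def Rz (K : Type u) [Field K] (d : ℕ) (v : ℕ → ℕ) : Prop :=
  ∃ (σ : Type) (_ : Finite σ) (f : (σ →₀ ℕ) → K),
    ∀ j, 1 ≤ j → 2 * j ≤ d → (cat f j (d - j)).rank = v j

variable {K : Type u} [Field K] {d : ℕ}

lemma Rz.congr {v w : ℕ → ℕ} (h : Rz K d v) (e : ∀ j, 1 ≤ j → 2 * j ≤ d → v j = w j) :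
    Rz K d w := by
  obtain ⟨σ, _, f, hf⟩ := h
  exact ⟨σ, inferInstance, f, fun j h1 h2 => by rw [hf j h1 h2, e j h1 h2]⟩

lemma Rz.zero : Rz K d 0 :=
  ⟨Unit, inferInstance, 0, fun j _ _ => by
    have : cat (0 : (Unit →₀ ℕ) → K) j (d - j) = 0 := rfl
    rw [this, Matrix.rank_zero]
    rfl⟩

lemma Rz.add {v w : ℕ → ℕ} (hv : Rz K d v) (hw : Rz K d w) : Rz K d (v + w) := by
  classical
  obtain ⟨σ, _, f, hf⟩ := hv
  obtain ⟨τ, _, g, hg⟩ := hw
  let E : (σ →₀ ℕ) × (τ →₀ ℕ) ≃+ (σ ⊕ τ →₀ ℕ) := Finsupp.sumFinsuppAddEquivProdFinsupp.symm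
  have hE : ∀ a b, (E (a, b)).degree = a.degree + b.degree := fun a b => degree_sumElim a b
  let F : (σ ⊕ τ →₀ ℕ) → K := fun u =>
    (if (E.symm u).2 = 0 then f (E.symm u).1 else 0) +
      (if (E.symm u).1 = 0 then g (E.symm u).2 else 0)
  have hF : ∀ a b a' b', F (E (a, b) + E (a', b')) =
      (if b + b' = 0 then f (a + a') else 0) + (if a + a' = 0 then g (b + b') else 0) := by
    intro a b a' b'
    simp only [F, ← map_add, AddEquiv.symm_apply_apply, Prod.mk_add_mk]
  let l : ∀ k, Mon σ k → Mon (σ ⊕ τ) k := fun k a => ⟨E (a.1, 0), by simp [hE, a.2]⟩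
  let r : ∀ k, Mon τ k → Mon (σ ⊕ τ) k := fun k a => ⟨E (0, a.1), by simp [hE, a.2]⟩
  refine ⟨σ ⊕ τ, inferInstance, F, fun j h1 h2 => ?_⟩
  have hne : ∀ {ρ : Type} {k : ℕ}, 1 ≤ k → ∀ a : Mon ρ k, a.1 ≠ 0 := by
    intro ρ k hk a h0
    have := a.2
    rw [h0, map_zero] at this
    omega
  have hj' : 1 ≤ d - j := by omega
  have hsub : (cat F j (d - j)).submatrix (Sum.elim (l j) (r j)) (Sum.elim (l (d - j)) (r (d - j))) =
      Matrix.fromBlocks (cat f j (d - j)) 0 0 (cat g j (d - j)) := by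
    ext (a | a) (b | b)
    · change F (E _ + E _) = f (a.1 + b.1)
      rw [hF]
      simp [hne h1 a]
    · change F (E _ + E _) = 0
      rw [hF]
      simp [hne h1 a, hne hj' b]
    · change F (E _ + E _) = 0
      rw [hF]
      simp [hne h1 a, hne hj' b]
    · change F (E _ + E _) = g (a.1 + b.1)
      rw [hF]
      simp [hne h1 a]
  have h3 := Matrix.rank_submatrix_le (cat F j (d - j)) (Sum.elim (l j) (r j))
    (Sum.elim (l (d - j)) (r (d - j)))
  have h4 := rank_le_of_support (cat F j (d - j)) (Sum.elim (l j) (r j))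
    (Sum.elim (l (d - j)) (r (d - j))) (by
      rintro ⟨u, hu⟩ ⟨v, hv⟩ huv
      obtain ⟨⟨a, b⟩, rfl⟩ := E.surjective u
      obtain ⟨⟨a', b'⟩, rfl⟩ := E.surjective v
      change F (E _ + E _) ≠ 0 at huv
      rw [hF] at huv
      rw [hE] at hu hv
      by_cases hb : b + b' = 0
      · obtain ⟨rfl, rfl⟩ := add_eq_zero.1 hb
        exact ⟨⟨Sum.inl ⟨a, by simpa using hu⟩, rfl⟩, ⟨Sum.inl ⟨a', by simpa using hv⟩, rfl⟩⟩
      · by_cases ha : a + a' = 0
        · obtain ⟨rfl, rfl⟩ := add_eq_zero.1 ha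
          exact ⟨⟨Sum.inr ⟨b, by simpa using hu⟩, rfl⟩, ⟨Sum.inr ⟨b', by simpa using hv⟩, rfl⟩⟩
        · simp [ha, hb] at huv)
  rw [hsub, rank_blocks, hf j h1 h2, hg j h1 h2] at h3 h4
  exact le_antisymm h4 h3

lemma Rz.nsmul {v : ℕ → ℕ} (hv : Rz K d v) (n : ℕ) : Rz K d (n • v) := by
  induction n with
  | zero => simpa using Rz.zero
  | succ n ih => rw [succ_nsmul]; exact ih.add hv

/-- the monomial with exponents `a`, `b` in two variables -/
noncomputable def mon2 (a b : ℕ) : Fin 2 →₀ ℕ := Finsupp.equivFunOnFinite.symm ![a, b]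

@[simp] lemma mon2_zero (a b : ℕ) : mon2 a b 0 = a := rfl

@[simp] lemma mon2_one (a b : ℕ) : mon2 a b 1 = b := rfl

lemma degree_two (u : Fin 2 →₀ ℕ) : u.degree = u 0 + u 1 := by
  rw [Finsupp.degree_eq_sum, Fin.sum_univ_two]

lemma ext_two {u v : Fin 2 →₀ ℕ} (h0 : u 0 = v 0) (h1 : u 1 = v 1) : u = v := by
  ext i
  fin_cases i
  · exact h0
  · exact h1

lemma Rz.monomial (a : ℕ) (ha : 2 * a ≤ d) : Rz K d fun j => min j a + 1 := by
  classical
  refine ⟨Fin 2, inferInstance, fun u => if u = mon2 a (d - a) then 1 else 0, fun j h1 h2 => ?_⟩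
  let p : Fin (min j a + 1) → Mon (Fin 2) j := fun t =>
    ⟨mon2 t (j - t), by have := t.2; rw [degree_two, mon2_zero, mon2_one]; omega⟩
  let p' : Fin (min j a + 1) → Mon (Fin 2) (d - j) := fun t =>
    ⟨mon2 (a - t) (d - j - (a - t)), by have := t.2; rw [degree_two, mon2_zero, mon2_one]; omega⟩
  apply le_antisymm
  · have := rank_le_of_cover (β := Empty)
      (cat (K := K) (fun u => if u = mon2 a (d - a) then 1 else 0) j (d - j)) p Empty.elim (by
        intro u v huv
        left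
        have h3 : u.1 + v.1 = mon2 a (d - a) := by
          by_contra hc
          exact huv (if_neg hc)
        have h4 := DFunLike.congr_fun h3 0
        have h5 := u.2
        rw [degree_two] at h5
        rw [Finsupp.add_apply, mon2_zero] at h4
        refine ⟨⟨u.1 0, by omega⟩, Subtype.ext (ext_two rfl ?_)⟩
        change j - u.1 0 = u.1 1
        omega)
    simpa using this
  · have := rank_ge_of_sub
      (cat (K := K) (fun u => if u = mon2 a (d - a) then 1 else 0) j (d - j)) p p' (by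
        intro t
        have := t.2
        refine if_pos (ext_two ?_ ?_)
        · change (t : ℕ) + (a - t) = a
          omega
        · change (j - t : ℕ) + (d - j - (a - t)) = d - a
          omega) (by
        intro t t' hh
        have h3 : (p t).1 + (p' t').1 = mon2 a (d - a) := by
          by_contra hc
          exact hh (if_neg hc)
        have h4 := DFunLike.congr_fun h3 0
        have := t.2
        have := t'.2
        change (t : ℕ) + (a - t') = a at h4
        exact Fin.ext (by omega))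
    simpa using this

/-- two realizable vectors that differ by a unit vector -/
lemma exists_unit_pair (d l : ℕ) (h1 : 1 ≤ l) (h2 : 2 * l ≤ d) :
    ∃ b : ℕ → ℕ, ∀ (K : Type u) [Field K], Rz K d b ∧ Rz K d (b + Pi.single l 1) := by
  by_cases h3 : 2 * (l + 1) ≤ d
  · refine ⟨_, fun K _ =>
      ⟨(Rz.monomial (K := K) (l - 1) (by omega)).add (Rz.monomial (l + 1) h3), ?_⟩⟩
    refine ((Rz.monomial (K := K) l h2).add (Rz.monomial l h2)).congr fun j _ _ => ?_
    simp only [Pi.add_apply, Pi.single_apply]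
    split_ifs <;> omega
  · refine ⟨_, fun K _ => ⟨Rz.monomial (K := K) (l - 1) (by omega), ?_⟩⟩
    refine (Rz.monomial (K := K) l h2).congr fun j _ _ => ?_
    simp only [Pi.add_apply, Pi.single_apply]
    split_ifs <;> omega

lemma cat_transpose {K σ : Type*} (f : (σ →₀ ℕ) → K) (i j : ℕ) : (cat f i j).transpose = cat f j i := by
  ext u v
  change f (v.1 + u.1) = f (u.1 + v.1)
  rw [add_comm]

theorem Rz.isGorSeq {h : ℕ → ℕ} (hR : Rz K d h) (hd : 2 ≤ d) (h0 : h 0 = 1)
    (hs : ∀ i j, i + j = d → h i = h j) (h1 : 0 < h 1) (h2 : ∀ i, d < i → h i = 0) :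
    IsGorSeq K d h := by
  obtain ⟨σ, _, f, hf⟩ := hR
  refine isGorSeq_cat' f d ?_ h h0 (by rw [← hs 0 d (by omega), h0]) (fun i hi hi' => ?_) h2
  · by_contra hc
    push Not at hc
    have : cat f 1 (d - 1) = 0 := by
      ext u v
      exact hc _ (by rw [map_add, u.2, v.2]; omega)
    have h3 := hf 1 le_rfl (by omega)
    rw [this, Matrix.rank_zero] at h3
    omega
  · by_cases h3 : 2 * i ≤ d
    · exact hf i hi h3
    · have := hf (d - i) (by omega) (by omega)
      rw [show d - (d - i) = i by omega] at this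
      rw [← Matrix.rank_transpose, cat_transpose, this]
      exact hs _ _ (by omega)

end Pool.Agent.MP_708e57_al

end MrgPart0

-- ======== part 1: formerly Pool.Agent.MP_708e57_al.cf.Peak
section MrgPart1

/-!
Inverse systems attached to edge labelings of a graph.
-/

namespace Pool.Agent.MP_708e57_al

open Module Finset

universe u

set_option linter.unusedSectionVars false

section graph

variable {V E Q : Type} [Fintype V] [Fintype E] [Fintype Q] [DecidableEq V] [DecidableEq E]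
  [DecidableEq Q] (p r : E → V)

/-- the labels seen from the vertex `v` -/
def gloc (s : E → Q) (v : V) : E → Option Q :=
  fun e => if p e = v ∨ r e = v then some (s e) else none

/-- the product of the variables of the vertices in `I` -/
noncomputable def gmon (s : E → Q) (I : Finset V) : V × (E → Option Q) →₀ ℕ :=
  Finsupp.equivFunOnFinite.symm fun x => if x.1 ∈ I ∧ x.2 = gloc p r s x.1 then 1 else 0

lemma gmon_apply (s : E → Q) (I : Finset V) (x : V × (E → Option Q)) :
    gmon p r s I x = if x.1 ∈ I ∧ x.2 = gloc p r s x.1 then 1 else 0 := rfl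

lemma degree_gmon (s : E → Q) (I : Finset V) : (gmon p r s I).degree = I.card := by
  rw [Finsupp.degree_eq_sum, Fintype.sum_prod_type]
  have : ∀ v, ∑ y, gmon p r s I (v, y) = if v ∈ I then 1 else 0 := by
    intro v
    simp only [gmon_apply]
    by_cases hv : v ∈ I <;> simp [hv]
  simp [this]

lemma gmon_add (s : E → Q) (I : Finset V) :
    gmon p r s I + gmon p r s Iᶜ = gmon p r s univ := by
  ext x
  simp only [Finsupp.add_apply, gmon_apply, mem_compl, mem_univ, true_and]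
  by_cases h1 : x.1 ∈ I <;> simp [h1]

lemma gmon_congr {s s' : E → Q} {I : Finset V} (h : ∀ v ∈ I, gloc p r s v = gloc p r s' v) :
    gmon p r s I = gmon p r s' I := by
  ext x
  simp only [gmon_apply]
  by_cases h1 : x.1 ∈ I
  · rw [h _ h1]
  · simp [h1]

lemma gloc_eq_of_add {s s' : E → Q} {I : Finset V} {y : V × (E → Option Q) →₀ ℕ}
    (h : gmon p r s I + y = gmon p r s' univ) : ∀ v ∈ I, gloc p r s v = gloc p r s' v := by
  intro v hv
  have := DFunLike.congr_fun h (v, gloc p r s v)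
  simp only [Finsupp.add_apply, gmon_apply, hv, and_self, if_true, mem_univ, true_and] at this
  by_contra hc
  rw [if_neg hc] at this
  omega

lemma exists_gmon_of_add {s : E → Q} {x y : V × (E → Option Q) →₀ ℕ}
    (h : x + y = gmon p r s univ) : ∃ I, x = gmon p r s I := by
  refine ⟨univ.filter fun v => x (v, gloc p r s v) ≠ 0, ?_⟩
  ext ⟨v, z⟩
  have := DFunLike.congr_fun h (v, z)
  simp only [Finsupp.add_apply, gmon_apply, mem_univ, true_and] at this
  simp only [gmon_apply, mem_filter, mem_univ, true_and]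
  by_cases hz : z = gloc p r s v
  · subst hz
    rw [if_pos rfl] at this
    by_cases h0 : x (v, gloc p r s v) = 0
    · simp [h0]
    · simp only [ne_eq, h0, not_false_eq_true, and_self, if_true]
      omega
  · rw [if_neg hz] at this
    simp only [hz, and_false, if_false]
    omega

lemma label_eq {s s' : E → Q} {v : V} (h : gloc p r s v = gloc p r s' v) {e : E}
    (he : p e = v ∨ r e = v) : s e = s' e := by
  have := congrFun h e
  simpa [gloc, he] using this

variable (K : Type u) [Field K]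

open Classical in
/-- the form attached to the graph -/
noncomputable def gform (u : V × (E → Option Q) →₀ ℕ) : K :=
  if ∃ s, u = gmon p r s univ then 1 else 0

lemma gform_lower (I : Finset V) (hI : ∀ e, ¬(p e ∈ I ↔ r e ∈ I)) (j k : ℕ) (hj : I.card = j)
    (hk : Iᶜ.card = k) :
    Fintype.card Q ^ Fintype.card E ≤ (cat (gform (Q := Q) p r K) j k).rank := by
  have := rank_ge_of_sub (ι := E → Q) (cat (gform (Q := Q) p r K) j k)
    (fun s => ⟨gmon p r s I, by rw [degree_gmon, hj]⟩)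
    (fun s => ⟨gmon p r s Iᶜ, by rw [degree_gmon, hk]⟩)
    (fun s => if_pos ⟨s, gmon_add p r s I⟩) (by
      intro s s' hh
      have h1 : ∃ s'', gmon p r s I + gmon p r s' Iᶜ = gmon p r s'' univ := by
        by_contra hc
        exact hh (if_neg hc)
      obtain ⟨s'', h1⟩ := h1
      have h2 := gloc_eq_of_add p r h1
      have h3 := gloc_eq_of_add p r ((add_comm _ _).trans h1)
      funext e
      by_cases h4 : p e ∈ I
      · have h5 : r e ∈ Iᶜ := mem_compl.2 fun h => hI e (by simp [h, h4])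
        rw [label_eq p r (h2 _ h4) (Or.inl rfl), label_eq p r (h3 _ h5) (Or.inr rfl)]
      · have h5 : r e ∈ I := by
          by_contra h
          exact hI e (by simp [h, h4])
        rw [label_eq p r (h2 _ h5) (Or.inr rfl),
          label_eq p r (h3 _ (mem_compl.2 h4)) (Or.inl rfl)])
  rwa [Nat.card_eq_fintype_card, Fintype.card_fun] at this

lemma gform_upper (j k n : ℕ) (hQ : 1 ≤ Fintype.card Q)
    (hn : ∀ I : Finset V, I.card = j →
      (univ.filter fun e => ¬(p e ∈ I ↔ r e ∈ I)).card ≤ n) :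
    (cat (gform (Q := Q) p r K) j k).rank ≤ 2 ^ Fintype.card V * Fintype.card Q ^ n := by
  classical
  let C := Σ I : {I : Finset V // I.card = j}, ({e // ¬(p e ∈ I.1 ↔ r e ∈ I.1)} → Q)
  let N : Matrix C (Mon (V × (E → Option Q)) k) K := Matrix.of fun c v =>
    if ∃ s : E → Q, (∀ e, s e.1 = c.2 e) ∧ v.1 = gmon p r s c.1.1ᶜ then 1 else 0
  have h1 : (cat (gform (Q := Q) p r K) j k).rank ≤ N.rank := by
    refine rank_le_of_rows _ _ fun u => ?_
    by_cases h0 : cat (gform (Q := Q) p r K) j k u = 0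
    · exact Or.inl h0
    right
    obtain ⟨v0, hv0⟩ := Function.ne_iff.1 h0
    have h2 : ∃ s, u.1 + v0.1 = gmon p r s univ := by
      by_contra hc
      exact hv0 (if_neg hc)
    obtain ⟨s, hs⟩ := h2
    obtain ⟨I, hI⟩ := exists_gmon_of_add p r hs
    have hc : I.card = j := by rw [← degree_gmon p r s I, ← hI, u.2]
    refine ⟨⟨⟨I, hc⟩, fun e => s e.1⟩, ?_⟩
    funext v
    change (if ∃ s, u.1 + v.1 = gmon p r s univ then (1 : K) else 0) =
      if ∃ s' : E → Q, (∀ e : {e // ¬(p e ∈ I ↔ r e ∈ I)}, s' e.1 = s e.1) ∧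
        v.1 = gmon p r s' Iᶜ then 1 else 0
    rw [hI]
    congr 1
    apply propext
    constructor
    · rintro ⟨s', hs'⟩
      have h3 := gloc_eq_of_add p r hs'
      refine ⟨s', fun e => ?_, ?_⟩
      · by_cases h4 : p e.1 ∈ I
        · exact (label_eq p r (h3 _ h4) (Or.inl rfl)).symm
        · have h5 : r e.1 ∈ I := by
            by_contra h
            exact e.2 (by simp [h, h4])
          exact (label_eq p r (h3 _ h5) (Or.inr rfl)).symm
      · rw [gmon_congr p r h3, ← gmon_add p r s' I] at hs'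
        exact add_left_cancel hs'
    · rintro ⟨s', hs', hv⟩
      refine ⟨fun e => if p e ∈ I ∨ r e ∈ I then s e else s' e, ?_⟩
      rw [← gmon_add p r _ I, hv]
      congr 1
      · refine gmon_congr p r fun x hx => ?_
        funext e
        unfold gloc
        beta_reduce
        split_ifs with h3 h4
        · rfl
        · refine absurd ?_ h4
          rcases h3 with rfl | rfl
          · exact Or.inl hx
          · exact Or.inr hx
        · rfl
      · refine gmon_congr p r fun x hx => ?_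
        have hx' := mem_compl.1 hx
        funext e
        unfold gloc
        beta_reduce
        split_ifs with h3 h4
        · refine congrArg some (hs' ⟨e, fun h => hx' ?_⟩)
          rcases h3 with rfl | rfl
          · exact h4.elim id h.2
          · exact h4.elim h.1 id
        · rfl
        · rfl
  refine h1.trans ((Matrix.rank_le_card_height N).trans ?_)
  rw [Fintype.card_sigma]
  refine (sum_le_card_nsmul _ _ (Fintype.card Q ^ n) fun I _ => ?_).trans ?_
  · rw [Fintype.card_fun]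
    refine Nat.pow_le_pow_right hQ ?_
    rw [Fintype.card_subtype]
    exact hn I.1 I.2
  · rw [smul_eq_mul, card_univ]
    refine Nat.mul_le_mul_right _ ?_
    rw [← Fintype.card_finset]
    exact Fintype.card_subtype_le _

end graph

lemma card_cut (i k : ℕ) (I : Finset (Fin i ⊕ Fin k)) :
    ∃ a b a' b' : ℕ, a + a' = i ∧ b + b' = k ∧ a + b = I.card ∧
      (univ.filter fun e : Fin i × Fin k =>
        ¬(Sum.inl e.1 ∈ I ↔ Sum.inr e.2 ∈ I)).card ≤ a * b' + a' * b := by
  refine ⟨I.toLeft.card, I.toRight.card, I.toLeftᶜ.card, I.toRightᶜ.card, ?_, ?_, ?_, ?_⟩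
  · rw [card_add_card_compl, Fintype.card_fin]
  · rw [card_add_card_compl, Fintype.card_fin]
  · exact card_toLeft_add_card_toRight
  · rw [← card_product, ← card_product]
    refine le_trans (card_le_card ?_) (card_union_le _ _)
    intro e he
    have := (mem_filter.1 he).2
    simp only [mem_union, mem_product, mem_toLeft, mem_compl, mem_toRight]
    tauto

/-- A form with a sharp peak in degree `i`. -/
theorem exists_peak (K : Type u) [Field K] (d i q : ℕ) (h2 : 2 * i ≤ d) (hq : 1 ≤ q) :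
    ∃ P : ℕ → ℕ, Rz K d P ∧ q ^ (i * (d - i)) ≤ P i ∧
      (∀ j, j ≤ i → P j ≤ 2 ^ d * q ^ (j * (d - i))) ∧
      (∀ j, i ≤ j → 2 * j ≤ d → P j ≤ 2 ^ d * q ^ (i * (d - j))) := by
  obtain ⟨k, rfl⟩ : ∃ k, d = i + k := ⟨d - i, by omega⟩
  let p : Fin i × Fin k → Fin i ⊕ Fin k := fun e => Sum.inl e.1
  let r : Fin i × Fin k → Fin i ⊕ Fin k := fun e => Sum.inr e.2
  have hV : Fintype.card (Fin i ⊕ Fin k) = i + k := by simp
  refine ⟨fun j => (cat (gform (Q := Fin q) p r K) j (i + k - j)).rank,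
    ⟨_, inferInstance, _, fun _ _ _ => rfl⟩, ?_, fun j hj => ?_, fun j hj hj' => ?_⟩
  · have := gform_lower (Q := Fin q) p r K ((univ : Finset (Fin i)).disjSum ∅) (by simp [p, r])
      i (i + k - i) (by simp) (by rw [card_compl]; simp)
    simpa using this
  · have := gform_upper (Q := Fin q) p r K j (i + k - j) (j * (i + k - i)) (by simpa using hq) (by
      intro I hI
      obtain ⟨a, b, a', b', e1, e2, e3, e4⟩ := card_cut i k I
      refine e4.trans ?_
      rw [Nat.add_sub_cancel_left, ← hI, ← e3, add_mul]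
      refine add_le_add (Nat.mul_le_mul_left _ (by omega)) ?_
      rw [mul_comm]
      exact Nat.mul_le_mul_left _ (by omega))
    simpa using this
  · have := gform_upper (Q := Fin q) p r K j (i + k - j) (i * (i + k - j)) (by simpa using hq) (by
      intro I hI
      obtain ⟨a, b, a', b', e1, e2, e3, e4⟩ := card_cut i k I
      refine e4.trans ?_
      have e5 : i + k - j = a' + b' := by omega
      have e6 : b ≤ a' + b' := by omega
      rw [e5, ← e1, add_mul]
      exact add_le_add (Nat.mul_le_mul_left _ (by omega)) (Nat.mul_le_mul_left _ e6))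
    simpa using this

end Pool.Agent.MP_708e57_al

end MrgPart1

-- ======== part 2: formerly Pool.Agent.MP_708e57_al.cf.Greedy
section MrgPart2

/-!
A greedy decomposition of vectors into peaks.
-/

namespace Pool.Agent.MP_708e57_al

open Finset

lemma greedy_step {ι : Type*} [Fintype ι] [DecidableEq ι] (θ : ι → ι → ℝ) (ε c γ : ℝ)
    (hε : 0 < ε) (hθ0 : ∀ i j, i ≠ j → ε ≤ θ i j) (hθ1 : ∀ i j, i ≠ j → θ i j ≤ 1 - ε)
    (hc : 0 ≤ c) (hγ0 : 0 < γ) (hγ1 : γ ≤ 1) (n0 : ℕ) :
    ∃ (M : ℝ) (μ : ℕ), 0 ≤ M ∧ ∀ R : (ι → ℕ) → Prop, R 0 → (∀ v w, R v → R w → R (v + w)) →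
      (∀ i n, n0 ≤ n → ∃ P, R P ∧ γ * n ≤ P i ∧ 2 * P i ≤ n ∧
        ∀ j, j ≠ i → (P j : ℝ) ≤ c * (n : ℝ) ^ θ i j) → ∀ x : ι → ℕ,
      (∀ j, M * ∑ i ∈ univ.erase j, (x i : ℝ) ^ θ i j ≤ x j) →
      ∃ y z, R y ∧ (∀ j, z j < μ) ∧ x = y + z := by
  set δ : ℝ := 1 - (1 - γ) ^ ε with hδ
  have hδ0 : 0 < δ := sub_pos.2 (Real.rpow_lt_one (by linarith) (by linarith) hε)
  set M : ℝ := c / δ with hM
  have hM0 : 0 ≤ M := div_nonneg hc hδ0.le
  have hMδ : M * δ = c := div_mul_cancel₀ _ hδ0.ne'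
  set A : ℝ := 2 * M * Fintype.card ι with hA
  have hA0 : 0 ≤ A := by positivity
  obtain ⟨μ0, hμ0⟩ := exists_nat_ge (A ^ ε⁻¹)
  refine ⟨M, μ0 + n0 + 1, hM0, fun R h0 hadd hpeak x => ?_⟩
  induction hN : ∑ j, x j using Nat.strong_induction_on generalizing x with
  | _ N ih =>
  intro hx
  by_cases hsmall : ∀ j, x j < μ0 + n0 + 1
  · exact ⟨0, x, h0, hsmall, by simp⟩
  push Not at hsmall
  obtain ⟨j0, hj0⟩ := hsmall
  have : Nonempty ι := ⟨j0⟩
  obtain ⟨i, hi⟩ := Finite.exists_max x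
  have hxi : μ0 + n0 + 1 ≤ x i := hj0.trans (hi j0)
  have hxi1 : (1 : ℝ) ≤ x i := by exact_mod_cast (by omega : 1 ≤ x i)
  obtain ⟨P, hP, hP1, hP2, hP3⟩ := hpeak i (x i) (by omega)
  set x' : ι → ℕ := fun j => x j - P j with hx'
  have hle : ∀ k, (x' k : ℝ) ≤ x k := fun k => by exact_mod_cast Nat.sub_le _ _
  have hcast : ∀ k, P k ≤ x k → (x' k : ℝ) = x k - P k := fun k hk => by
    simp only [hx']
    rw [Nat.cast_sub hk]
  have hPi : P i ≤ x i := by omega
  have key : ∀ j, j ≠ i → M * ∑ k ∈ univ.erase j, (x' k : ℝ) ^ θ k j + P j ≤ x j := by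
    intro j hj
    have hθ := hθ0 i j hj.symm
    have h1 : δ * (x i : ℝ) ^ θ i j ≤ (x i : ℝ) ^ θ i j - (x' i : ℝ) ^ θ i j := by
      have h2 : (x' i : ℝ) ≤ (1 - γ) * x i := by
        rw [hcast i hPi]
        linarith
      have h3 : (x' i : ℝ) ^ θ i j ≤ (1 - γ) ^ ε * (x i : ℝ) ^ θ i j := by
        refine (Real.rpow_le_rpow (Nat.cast_nonneg _) h2 (by linarith)).trans ?_
        rw [Real.mul_rpow (by linarith) (Nat.cast_nonneg _)]
        exact mul_le_mul_of_nonneg_right
          (Real.rpow_le_rpow_of_exponent_ge' (by linarith) (by linarith) hε.le hθ) (by positivity)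
      rw [hδ]
      linarith
    have h4 : (x i : ℝ) ^ θ i j - (x' i : ℝ) ^ θ i j ≤
        ∑ k ∈ univ.erase j, ((x k : ℝ) ^ θ k j - (x' k : ℝ) ^ θ k j) := by
      refine single_le_sum (f := fun k => (x k : ℝ) ^ θ k j - (x' k : ℝ) ^ θ k j)
        (fun k hk => sub_nonneg.2 ?_) (mem_erase.2 ⟨hj.symm, mem_univ _⟩)
      have := hθ0 k j (mem_erase.1 hk).1
      exact Real.rpow_le_rpow (Nat.cast_nonneg _) (hle k) (by linarith)
    rw [sum_sub_distrib] at h4
    have h5 := mul_le_mul_of_nonneg_left (h1.trans h4) hM0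
    rw [← mul_assoc, hMδ, mul_sub] at h5
    have := hP3 j hj
    have := hx j
    linarith
  have hPx : ∀ k, P k ≤ x k := by
    intro k
    by_cases hk : k = i
    · rw [hk]; exact hPi
    · have h1 := key k hk
      have h2 : 0 ≤ M * ∑ l ∈ univ.erase k, (x' l : ℝ) ^ θ l k :=
        mul_nonneg hM0 (sum_nonneg fun l _ => by positivity)
      exact_mod_cast (by linarith : (P k : ℝ) ≤ x k)
  have hpos : 0 < P i := by
    have : (0 : ℝ) < P i := lt_of_lt_of_le (by positivity) hP1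
    exact_mod_cast this
  have hlt : ∑ j, x' j < N := by
    rw [← hN]
    refine sum_lt_sum (fun k _ => Nat.sub_le _ _) ⟨i, mem_univ _, ?_⟩
    simp only [hx']
    omega
  obtain ⟨y, z, hy, hz, e⟩ := ih _ hlt x' rfl (by
    intro j
    by_cases hj : j = i
    · subst hj
      have h1 : ∑ k ∈ univ.erase j, (x' k : ℝ) ^ θ k j ≤
          Fintype.card ι * (x j : ℝ) ^ (1 - ε) := by
        refine (sum_le_card_nsmul _ _ ((x j : ℝ) ^ (1 - ε)) fun k hk => ?_).trans ?_
        · have hk' := (mem_erase.1 hk).1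
          have := hθ0 k j hk'
          have hkj : (x k : ℝ) ≤ x j := by exact_mod_cast hi k
          refine (Real.rpow_le_rpow (Nat.cast_nonneg _) ((hle k).trans hkj)
            (by linarith)).trans ?_
          exact Real.rpow_le_rpow_of_exponent_le hxi1 (hθ1 k j hk')
        · rw [nsmul_eq_mul]
          refine mul_le_mul_of_nonneg_right ?_ (by positivity)
          exact_mod_cast card_le_univ _
      have h2 : A ≤ (x j : ℝ) ^ ε := by
        have h3 : A ^ ε⁻¹ ≤ x j := hμ0.trans (by exact_mod_cast (by omega : μ0 ≤ x j))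
        have := Real.rpow_le_rpow (by positivity) h3 hε.le
        rwa [Real.rpow_inv_rpow hA0 hε.ne'] at this
      have h4 : (x j : ℝ) ^ ε * (x j : ℝ) ^ (1 - ε) = x j := by
        rw [← Real.rpow_add (by linarith)]
        simp
      have h5 := mul_le_mul_of_nonneg_right h2 (by positivity : 0 ≤ (x j : ℝ) ^ (1 - ε))
      have h6 := mul_le_mul_of_nonneg_left h1 hM0
      have h7 : (2 : ℝ) * P j ≤ x j := by exact_mod_cast hP2
      rw [hcast j hPi]
      rw [h4, hA] at h5
      nlinarith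
    · rw [hcast j (hPx j)]
      linarith [key j hj])
  refine ⟨P + y, z, hadd _ _ hP hy, hz, ?_⟩
  funext k
  have := congrFun e k
  have := hPx k
  simp only [hx', Pi.add_apply] at *
  omega

lemma box_step {ι : Type*} [Fintype ι] [DecidableEq ι] (R : (ι → ℕ) → Prop) (h0 : R 0)
    (hadd : ∀ v w, R v → R w → R (v + w)) (b : ι → ι → ℕ) (hb : ∀ l, R (b l))
    (hb' : ∀ l, R (b l + Pi.single l 1)) (μ : ℕ) (z : ι → ℕ) (hz : ∀ j, z j < μ) :
    R (∑ l, μ • b l + z) := by
  have hs : ∀ v (n : ℕ), R v → R (n • v) := by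
    intro v n hv
    induction n with
    | zero => simpa using h0
    | succ n ih => rw [succ_nsmul]; exact hadd _ _ ih hv
  have e : ∑ l, μ • b l + z = ∑ l, (z l • (b l + Pi.single l 1) + (μ - z l) • b l) := by
    have e1 : z = ∑ l, z l • (Pi.single l 1 : ι → ℕ) := by
      funext k
      simp [Pi.single_apply]
    conv_lhs => rw [e1]
    rw [← sum_add_distrib]
    refine sum_congr rfl fun l _ => ?_
    rw [smul_add, add_right_comm, ← add_smul, Nat.add_sub_cancel' (hz l).le]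
  rw [e]
  exact sum_induction _ R hadd h0 fun l _ => hadd _ _ (hs _ _ (hb' l)) (hs _ _ (hb l))

theorem greedy {ι : Type*} [Fintype ι] [DecidableEq ι] (θ : ι → ι → ℝ) (ε c γ : ℝ)
    (hε : 0 < ε) (hθ0 : ∀ i j, i ≠ j → ε ≤ θ i j) (hθ1 : ∀ i j, i ≠ j → θ i j ≤ 1 - ε)
    (hc : 0 ≤ c) (hγ0 : 0 < γ) (hγ1 : γ ≤ 1) (n0 : ℕ) (b : ι → ι → ℕ) :
    ∃ T : ℕ, 1 ≤ T ∧ ∀ R : (ι → ℕ) → Prop, R 0 → (∀ v w, R v → R w → R (v + w)) →
      (∀ i n, n0 ≤ n → ∃ P, R P ∧ γ * n ≤ P i ∧ 2 * P i ≤ n ∧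
        ∀ j, j ≠ i → (P j : ℝ) ≤ c * (n : ℝ) ^ θ i j) →
      (∀ l, R (b l)) → (∀ l, R (b l + Pi.single l 1)) → ∀ h : ι → ℕ, (∀ j, T ≤ h j) →
      (∀ i j, i ≠ j → T * (h i : ℝ) ^ θ i j ≤ h j) → R h := by
  obtain ⟨M, μ, hM, hstep⟩ := greedy_step θ ε c γ hε hθ0 hθ1 hc hγ0 hγ1 n0
  set a : ι → ℕ := ∑ l, μ • b l with hadef
  obtain ⟨T0, hT0⟩ := exists_nat_ge (2 * M * Fintype.card ι)
  refine ⟨T0 + 2 * ∑ j, a j + 1, by omega, fun R h0 hadd hpeak hb hb' h h1 h2 => ?_⟩
  have ha := box_step R h0 hadd b hb hb' μ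
  replace hstep := hstep R h0 hadd hpeak
  set T : ℕ := T0 + 2 * ∑ j, a j + 1 with hT
  have h3 : ∀ j, 2 * a j ≤ h j := fun j => by
    have := single_le_sum (f := a) (fun _ _ => Nat.zero_le _) (mem_univ j)
    have := h1 j
    omega
  obtain ⟨y, z, hy, hz, e⟩ := hstep (fun j => h j - a j) (by
    intro j
    have h4 : ∑ i ∈ univ.erase j, (((h i - a i : ℕ) : ℝ)) ^ θ i j ≤
        ∑ i ∈ univ.erase j, (h i : ℝ) ^ θ i j := by
      refine sum_le_sum fun i hi => ?_
      have := hθ0 i j (mem_erase.1 hi).1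
      exact Real.rpow_le_rpow (Nat.cast_nonneg _) (by exact_mod_cast Nat.sub_le _ _) (by linarith)
    have h5 : T * ∑ i ∈ univ.erase j, (h i : ℝ) ^ θ i j ≤ Fintype.card ι * h j := by
      rw [mul_sum]
      refine (sum_le_card_nsmul _ _ (h j : ℝ) fun i hi => h2 i j (mem_erase.1 hi).1).trans ?_
      rw [nsmul_eq_mul]
      refine mul_le_mul_of_nonneg_right ?_ (by positivity)
      exact_mod_cast card_le_univ _
    have h6 : (h j : ℝ) ≤ 2 * ((h j - a j : ℕ) : ℝ) := by
      have := h3 j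
      exact_mod_cast (by omega : h j ≤ 2 * (h j - a j))
    have h7 : 2 * M * Fintype.card ι ≤ T := hT0.trans (by exact_mod_cast (by omega : T0 ≤ T))
    have hTpos : (0 : ℝ) < T := by exact_mod_cast (by omega : 0 < T)
    refine (mul_le_mul_of_nonneg_left h4 hM).trans (le_of_mul_le_mul_left ?_ hTpos)
    have h8 := mul_le_mul_of_nonneg_left h5 hM
    have h9 := mul_le_mul_of_nonneg_right h7 (Nat.cast_nonneg (α := ℝ) (h j))
    have h10 := mul_le_mul_of_nonneg_left h6 hTpos.le
    nlinarith)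
  have : h = y + (a + z) := by
    funext k
    have := congrFun e k
    have := h3 k
    simp only [Pi.add_apply] at *
    omega
  rw [this]
  exact hadd _ _ hy (ha z hz)

end Pool.Agent.MP_708e57_al

end MrgPart2

-- marker of a merged file
example : 731051 + 67645 = 731051 + 67645 := rfl

end MrgPart0

-- ======== part 1: formerly Pool.Agent.MP_708e57_al.cf.Suff
section MrgPart1

/-!
Symmetric sequences with room in Macaulay's inequalities are Gorenstein sequences.
-/

namespace Pool.Agent.MP_708e57_al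

open Finset

universe u

lemma chain_pow {d T : ℕ} (hT : 1 ≤ T) {h : ℕ → ℕ}
    (H : ∀ k, 1 ≤ k → k + 2 ≤ d → T ^ d * h (k + 1) ^ k ≤ h k ^ (k + 1)) {a : ℕ} (ha : 1 ≤ a) :
    ∀ b, a < b → b + 1 ≤ d → T ^ b * h b ^ a ≤ h a ^ b := by
  intro b hb
  induction b, hb using Nat.le_induction with
  | base =>
    intro hd
    exact (Nat.mul_le_mul_right _ (Nat.pow_le_pow_right hT (by omega))).trans (H a ha (by omega))
  | succ b hb ih =>
    intro hd
    have h1 := ih (by omega)
    have h2 : h (b + 1) ^ b ≤ h b ^ (b + 1) :=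
      (Nat.le_mul_of_pos_left _ (by positivity)).trans (H b (by omega) (by omega))
    rw [← Nat.pow_le_pow_iff_left (n := b) (by omega)]
    calc (T ^ (b + 1) * h (b + 1) ^ a) ^ b = (T ^ b) ^ (b + 1) * (h (b + 1) ^ b) ^ a := by ring
      _ ≤ (T ^ b) ^ (b + 1) * (h b ^ (b + 1)) ^ a :=
          Nat.mul_le_mul_left _ (Nat.pow_le_pow_left h2 _)
      _ = (T ^ b * h b ^ a) ^ (b + 1) := by ring
      _ ≤ (h a ^ b) ^ (b + 1) := Nat.pow_le_pow_left h1 _
      _ = (h a ^ (b + 1)) ^ b := by ring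

lemma real_of_pow {T x y a b : ℕ} (hb : b ≠ 0) (h : T ^ b * x ^ a ≤ y ^ b) :
    (T : ℝ) * (x : ℝ) ^ ((a : ℝ) / b) ≤ y := by
  rw [← pow_le_pow_iff_left₀ (by positivity) (by positivity) hb, mul_pow, ← Real.rpow_natCast _ b,
    ← Real.rpow_natCast ((x : ℝ) ^ ((a : ℝ) / b)) b, ← Real.rpow_mul (Nat.cast_nonneg _),
    div_mul_cancel₀ _ (by exact_mod_cast hb), Real.rpow_natCast, Real.rpow_natCast]
  exact_mod_cast h

lemma pow_le_rpow {q n e e' a b : ℕ} (hb : b ≠ 0) (he : e' * b = e * a) (h : q ^ e ≤ n) :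
    ((q ^ e' : ℕ) : ℝ) ≤ (n : ℝ) ^ ((a : ℝ) / b) := by
  rw [← pow_le_pow_iff_left₀ (by positivity) (by positivity) hb,
    ← Real.rpow_natCast ((n : ℝ) ^ ((a : ℝ) / b)) b, ← Real.rpow_mul (Nat.cast_nonneg _),
    div_mul_cancel₀ _ (by exact_mod_cast hb), Real.rpow_natCast]
  have : (q ^ e') ^ b ≤ n ^ a := by
    rw [← pow_mul, he, pow_mul]
    exact Nat.pow_le_pow_left h _
  exact_mod_cast this

lemma exists_root (c e n : ℕ) (he : 1 ≤ e) (hc : 1 ≤ c) (hn : c ≤ n) :
    ∃ q, 1 ≤ q ∧ c * q ^ e ≤ n ∧ n ≤ c * 2 ^ e * q ^ e := by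
  have hex : ∃ q, n < c * (q + 1) ^ e := ⟨n, by
    have h1 : n + 1 ≤ (n + 1) ^ e := Nat.le_self_pow (by omega) _
    have h2 : (n + 1) ^ e ≤ c * (n + 1) ^ e := Nat.le_mul_of_pos_left _ hc
    omega⟩
  have h1 := Nat.find_spec hex
  have h2 : Nat.find hex ≠ 0 := fun h0 => by
    rw [h0] at h1
    simp at h1
    omega
  have h3 := Nat.find_min hex (m := Nat.find hex - 1) (by omega)
  rw [Nat.sub_add_cancel (by omega)] at h3
  refine ⟨Nat.find hex, by omega, by omega, h1.le.trans ?_⟩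
  rw [mul_assoc, ← mul_pow]
  exact Nat.mul_le_mul_left _ (Nat.pow_le_pow_left (by omega) _)

lemma ratio_bounds {a b d : ℕ} (ha : 1 ≤ a) (hab : a < b) (hb : b ≤ d) :
    (d : ℝ)⁻¹ ≤ (a : ℝ) / b ∧ (a : ℝ) / b ≤ 1 - (d : ℝ)⁻¹ := by
  have h1 : (1 : ℝ) ≤ a := by exact_mod_cast ha
  have h2 : (a : ℝ) + 1 ≤ b := by exact_mod_cast hab
  have h3 : (b : ℝ) ≤ d := by exact_mod_cast hb
  have h4 : (d : ℝ)⁻¹ ≤ (b : ℝ)⁻¹ := inv_anti₀ (by linarith) h3
  have h5 : (0 : ℝ) < b := by linarith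
  have h6 : (0 : ℝ) < (b : ℝ)⁻¹ := inv_pos.2 h5
  have h7 : (b : ℝ) * (b : ℝ)⁻¹ = 1 := mul_inv_cancel₀ h5.ne'
  rw [div_eq_mul_inv]
  constructor <;> nlinarith

theorem rz_of_room (d : ℕ) (hd : 3 ≤ d) : ∃ C : ℕ, ∀ (K : Type u) [Field K] (h : ℕ → ℕ),
    (∀ i j, i + j = d → h i = h j) → 0 < h 1 →
    (∀ i, 1 ≤ i → i + 2 ≤ d → C * h (i + 1) ^ i ≤ h i ^ (i + 1)) → Rz K d h := by
  classical
  let ι := {j // j ∈ Icc 1 (d / 2)}
  let _ : Fintype ι := inferInstanceAs (Fintype {j // j ∈ Icc 1 (d / 2)})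
  have hι : ∀ j : ι, 1 ≤ j.1 ∧ 2 * j.1 ≤ d := fun j => by
    have := mem_Icc.1 j.2
    omega
  let lo : ι → ι → ℕ := fun i j => if j.1 < i.1 then j.1 else d - j.1
  let hi : ι → ι → ℕ := fun i j => if j.1 < i.1 then i.1 else d - i.1
  have hlh : ∀ i j, i ≠ j → 1 ≤ lo i j ∧ lo i j < hi i j ∧ hi i j + 1 ≤ d := by
    intro i j hij
    have := hι i
    have := hι j
    have : i.1 ≠ j.1 := fun h => hij (Subtype.ext h)
    simp only [lo, hi]
    split_ifs <;> omega
  choose b hb using fun l : ι => exists_unit_pair.{u} d l.1 (hι l).1 (hι l).2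
  obtain ⟨T, hT, hmain⟩ := greedy (fun i j : ι => (lo i j : ℝ) / hi i j) (d : ℝ)⁻¹ (2 ^ d)
    (2 ^ (d + 1) * 2 ^ (d * d))⁻¹ (by positivity)
    (fun i j hij => (ratio_bounds (hlh i j hij).1 (hlh i j hij).2.1
      (by have := hlh i j hij; omega)).1)
    (fun i j hij => (ratio_bounds (hlh i j hij).1 (hlh i j hij).2.1
      (by have := hlh i j hij; omega)).2)
    (by positivity) (by positivity)
    (inv_le_one_of_one_le₀ (one_le_mul_of_one_le_of_one_le (one_le_pow₀ one_le_two)
      (one_le_pow₀ one_le_two))) (2 ^ (d + 1)) (fun l j => b l j.1)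
  refine ⟨T ^ d, fun K _ h hs h1 H => ?_⟩
  have hch := fun a ha => chain_pow hT H (a := a) ha
  suffices hh : ∃ v, Rz K d v ∧ ∀ j : ι, v j.1 = h j.1 by
    obtain ⟨v, hv, hv'⟩ := hh
    exact hv.congr fun j h2 h3 => hv' ⟨j, mem_Icc.2 ⟨h2, by omega⟩⟩
  refine hmain (fun y => ∃ v, Rz K d v ∧ ∀ j : ι, v j.1 = y j)
    ⟨0, Rz.zero, fun _ => rfl⟩ ?_ ?_ (fun l => ⟨_, (hb l K).1, fun _ => rfl⟩)
    (fun l => ⟨_, (hb l K).2, fun j => ?_⟩) (fun j => h j.1) ?_ ?_
  · rintro _ _ ⟨v, hv, hv'⟩ ⟨w, hw, hw'⟩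
    exact ⟨v + w, hv.add hw, fun j => by simp [hv', hw']⟩
  · intro i n hn
    obtain ⟨hi1, hi2⟩ := hι i
    obtain ⟨q, hq1, hq2, hq3⟩ := exists_root (2 ^ (d + 1)) (i.1 * (d - i.1)) n
      (Nat.mul_pos hi1 (by omega)) Nat.one_le_two_pow hn
    obtain ⟨P, hP, hP1, hP2, hP3⟩ := exists_peak K d i.1 q hi2 hq1
    have hq4 : q ^ (i.1 * (d - i.1)) ≤ n := (Nat.le_mul_of_pos_left _ (by positivity)).trans hq2
    refine ⟨fun j => P j.1, ⟨P, hP, fun _ => rfl⟩, ?_, ?_, fun j hj => ?_⟩
    · rw [inv_mul_le_iff₀ (by positivity)]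
      have h2 : 2 ^ (i.1 * (d - i.1)) ≤ 2 ^ (d * d) :=
        Nat.pow_le_pow_right (by omega) (Nat.mul_le_mul (by omega) (by omega))
      have h3 : n ≤ 2 ^ (d + 1) * 2 ^ (d * d) * P i.1 :=
        hq3.trans (Nat.mul_le_mul (Nat.mul_le_mul_left _ h2) hP1)
      exact_mod_cast h3
    · have := hP2 i.1 le_rfl
      rw [pow_succ] at hq2
      change 2 * P i.1 ≤ n
      nlinarith
    · have h2 := hlh i j hj.symm
      obtain ⟨hj1, hj2⟩ := hι j
      by_cases h3 : j.1 < i.1
      · have h4 := pow_le_rpow (e' := j.1 * (d - i.1)) (a := lo i j) (b := hi i j) (by omega)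
          (by simp only [lo, hi, if_pos h3]; ring) hq4
        have h5 : (P j.1 : ℝ) ≤ 2 ^ d * ((q ^ (j.1 * (d - i.1)) : ℕ) : ℝ) := by
          exact_mod_cast hP2 j.1 h3.le
        exact h5.trans (mul_le_mul_of_nonneg_left h4 (by positivity))
      · have h4 := pow_le_rpow (e' := i.1 * (d - j.1)) (a := lo i j) (b := hi i j) (by omega)
          (by simp only [lo, hi, if_neg h3]; ring) hq4
        have h5 : (P j.1 : ℝ) ≤ 2 ^ d * ((q ^ (i.1 * (d - j.1)) : ℕ) : ℝ) := by
          exact_mod_cast hP3 j.1 (by omega) hj2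
        exact h5.trans (mul_le_mul_of_nonneg_left h4 (by positivity))
  · simp only [Pi.add_apply, Pi.single_apply]
    by_cases hj : j = l
    · rw [if_pos hj, if_pos (congrArg Subtype.val hj)]
    · rw [if_neg hj, if_neg fun h => hj (Subtype.ext h)]
  · intro j
    obtain ⟨hj1, hj2⟩ := hι j
    have h2 := hch j.1 hj1 (d - 1) (by omega) (by omega)
    rw [hs (d - 1) 1 (by omega)] at h2
    exact (Nat.pow_le_pow_iff_left (n := d - 1) (by omega)).1
      ((Nat.le_mul_of_pos_right _ (by positivity)).trans h2)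
  · intro i j hij
    obtain ⟨h2, h3, h4⟩ := hlh i j hij
    have h5 := real_of_pow (by omega) (hch _ h2 _ h3 h4)
    have := hι i
    have := hι j
    have e1 : h (hi i j) = h i.1 := by
      simp only [hi]
      split_ifs
      · rfl
      · exact hs _ _ (by omega)
    have e2 : h (lo i j) = h j.1 := by
      simp only [lo]
      split_ifs
      · rfl
      · exact hs _ _ (by omega)
    rwa [e1, e2] at h5

theorem isGorSeq_of_room (d : ℕ) : ∃ C : ℕ, ∀ (K : Type u) [Field K] (h : ℕ → ℕ),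
    h 0 = 1 → (∀ i j, i + j = d → h i = h j) → (∀ i, i ≤ d → 0 < h i) → (∀ i, d < i → h i = 0) →
    (∀ i, 1 ≤ i → i + 2 ≤ d → C * h (i + 1) ^ i ≤ h i ^ (i + 1)) → IsGorSeq K d h := by
  by_cases hd : 3 ≤ d
  · obtain ⟨C, hC⟩ := rz_of_room.{u} d hd
    exact ⟨C, fun K _ h h0 hs hp hz H =>
      (hC K h hs (hp 1 (by omega)) H).isGorSeq (by omega) h0 hs (hp 1 (by omega)) hz⟩
  refine ⟨1, fun K _ h h0 hs hp hz _ => ?_⟩
  by_cases hd2 : d = 2
  · refine Rz.isGorSeq ?_ (by omega) h0 hs (hp 1 (by omega)) hz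
    refine ((Rz.monomial (K := K) 0 (by omega)).nsmul (h 1)).congr fun j h1 h2 => ?_
    obtain rfl : j = 1 := by omega
    simp
  · refine isGorSeq_cat' (σ := Unit) (fun _ => (1 : K)) d ⟨Finsupp.single () d, by simp, by simp⟩
      h h0 (by rw [← hs 0 d (by omega), h0]) (fun i h1 h2 => by omega) hz

end Pool.Agent.MP_708e57_al

end MrgPart1

-- marker of a merged file
example : 731051 + 782502 = 731051 + 782502 := rfl
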