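import Mathlib.Analysis.SpecialFunctions.Pow.Real
import Pool.Agent.MP_708e57_al.Final
import Mathlib.Algebra.Order.Star.Real
import Pool.Agent.MP_708e57_al.cf.Suff
import Pool.Agent.MP_708e57_al.cf.Alpha

-- ======== part 0: formerly Pool.Agent.MP_708e57_al.cf.Nec
section MrgPart0

/-!
The power form of Macaulay's bound, in every characteristic.
-/

namespace Pool.Agent.MP_708e57_al

open Module Finset

universe u

section comb

variable {σ : Type} [Fintype σ] [LinearOrder σ]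

/-- the monomials of `S` with least variable `s`, divided by `s` -/
noncomputable def lk (S : Finset (σ →₀ ℕ)) (s : σ) : Finset (σ →₀ ℕ) :=
  (S.filter fun u => u s ≠ 0 ∧ ∀ t < s, u t = 0).image fun u => u - Finsupp.single s 1

omit [Fintype σ] [LinearOrder σ] in
lemma sub_add_single {u : σ →₀ ℕ} {s : σ} (h : u s ≠ 0) :
    u - Finsupp.single s 1 + Finsupp.single s 1 = u :=
  tsub_add_cancel_of_le (Finsupp.single_le_iff.2 (by omega))

lemma mem_lk {S : Finset (σ →₀ ℕ)} {s : σ} {v : σ →₀ ℕ} :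
    v ∈ lk S s ↔ v + Finsupp.single s 1 ∈ S ∧ ∀ t < s, v t = 0 := by
  simp only [lk, mem_image, mem_filter]
  constructor
  · rintro ⟨u, ⟨h1, h2, h3⟩, rfl⟩
    rw [sub_add_single h2]
    exact ⟨h1, fun t ht => by simp [h3 t ht]⟩
  · rintro ⟨h1, h2⟩
    exact ⟨_, ⟨h1, by simp, fun t ht => by simp [h2 t ht, ht.ne]⟩, add_tsub_cancel_right _ _⟩

lemma card_lk (S : Finset (σ →₀ ℕ)) (hS : ∀ u ∈ S, u ≠ 0) : S.card = ∑ s, (lk S s).card := by
  have h1 : ∀ s, (lk S s).card = (S.filter fun u => u s ≠ 0 ∧ ∀ t < s, u t = 0).card := by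
    intro s
    refine card_image_of_injOn fun u hu v hv huv => ?_
    rw [← sub_add_single (mem_filter.1 hu).2.1, ← sub_add_single (mem_filter.1 hv).2.1]
    exact congrArg (· + Finsupp.single s 1) huv
  simp only [h1]
  rw [← card_biUnion]
  · congr 1
    ext u
    simp only [mem_biUnion, mem_univ, true_and, mem_filter]
    refine ⟨fun hu => ?_, fun ⟨_, h, _⟩ => h⟩
    have hne : u.support.Nonempty := Finsupp.support_nonempty_iff.2 (hS u hu)
    refine ⟨u.support.min' hne, hu, Finsupp.mem_support_iff.1 (min'_mem _ _), fun t ht => ?_⟩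
    by_contra hc
    exact absurd (min'_le _ t (Finsupp.mem_support_iff.2 hc)) (not_le.2 ht)
  · intro s _ t _ hst
    refine disjoint_left.2 fun u hu hu' => ?_
    obtain ⟨-, h2, h3⟩ := mem_filter.1 hu
    obtain ⟨-, h4, h5⟩ := mem_filter.1 hu'
    rcases lt_or_gt_of_ne hst with h | h
    · exact h2 (h5 s h)
    · exact h4 (h3 t h)

lemma shadow_pow (k : ℕ) : ∀ S T : Finset (σ →₀ ℕ), (∀ u ∈ S, u.degree = k + 1) →
    (∀ u ∈ T, u.degree = k) → (∀ v s, v + Finsupp.single s 1 ∈ S → v ∈ T) → S.Nonempty →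
    S.card ^ k ≤ T.card ^ (k + 1) := by
  induction k with
  | zero =>
    rintro S T hS - hsh ⟨u, hu⟩
    have h1 : u ≠ 0 := fun h => by simpa [h] using hS u hu
    obtain ⟨s, hs⟩ := Finsupp.support_nonempty_iff.2 h1
    have := hsh _ s (by rwa [sub_add_single (Finsupp.mem_support_iff.1 hs)])
    simpa using card_pos.2 ⟨_, this⟩
  | succ k ih =>
    intro S T hS hT hsh _
    set c : ℝ := (T.card : ℝ) ^ ((k + 1 : ℕ) : ℝ)⁻¹ with hc
    have hc0 : 0 ≤ c := by positivity
    have hc1 : c ^ (k + 1) = T.card := Real.rpow_inv_natCast_pow (Nat.cast_nonneg _) (by omega)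
    have key : ∀ s, ((lk S s).card : ℝ) ≤ c * (lk T s).card := by
      intro s
      rcases (lk S s).eq_empty_or_nonempty with h | h
      · rw [h, card_empty, Nat.cast_zero]
        positivity
      have h1 := ih (lk S s) (lk T s) (fun u hu => by
          have := hS _ (mem_lk.1 hu).1
          rw [map_add, Finsupp.degree_single] at this
          omega) (fun u hu => by
          have := hT _ (mem_lk.1 hu).1
          rw [map_add, Finsupp.degree_single] at this
          omega) (fun v t hv => by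
          obtain ⟨h2, h3⟩ := mem_lk.1 hv
          refine mem_lk.2 ⟨hsh _ t (by rwa [add_right_comm]), fun w hw => ?_⟩
          have := h3 w hw
          rw [Finsupp.add_apply] at this
          omega) h
      have h2 : (lk S s).card ≤ T.card := card_le_card fun v hv => hsh v s (mem_lk.1 hv).1
      rw [← pow_le_pow_iff_left₀ (by positivity) (by positivity) (Nat.succ_ne_zero k), mul_pow, hc1]
      have h3 : (lk S s).card ^ (k + 1) ≤ T.card * (lk T s).card ^ (k + 1) := by
        rw [pow_succ']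
        exact Nat.mul_le_mul h2 h1
      exact_mod_cast h3
    have h4 : (S.card : ℝ) ≤ c * T.card := by
      rw [card_lk S fun u hu h => by simpa [h] using hS u hu,
        card_lk T fun u hu h => by simpa [h] using hT u hu, Nat.cast_sum, Nat.cast_sum, mul_sum]
      exact sum_le_sum fun s _ => key s
    have h5 := pow_le_pow_left₀ (Nat.cast_nonneg _) h4 (k + 1)
    rw [mul_pow, hc1, ← pow_succ'] at h5
    exact_mod_cast h5

end comb

section std

variable {K E E' σ : Type*} [Field K] [AddCommGroup E] [Module K E] [AddCommGroup E'] [Module K E']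
  [Finite σ] [LinearOrder σ] (y : (σ →₀ ℕ) → E)

variable (K) in
/-- the span of the smaller monomials of the same degree -/
def below (u : σ →₀ ℕ) : Submodule K E :=
  Submodule.span K (y '' {w | w.degree = u.degree ∧ toLex w < toLex u})

variable (K) in
open Classical in
/-- standard monomials -/
noncomputable def std (i : ℕ) : Finset (σ →₀ ℕ) :=
  (Finsupp.finite_of_degree_eq (σ := σ) i).toFinset.filter fun u => y u ∉ below K y u

lemma mem_std {i : ℕ} {u : σ →₀ ℕ} : u ∈ std K y i ↔ u.degree = i ∧ y u ∉ below K y u := by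
  simp [std]

lemma mem_span_std (i : ℕ) (u : σ →₀ ℕ) (hu : u.degree = i) :
    y u ∈ Submodule.span K (y '' (std K y i : Set (σ →₀ ℕ))) := by
  induction hx : toLex u using WellFoundedLT.induction generalizing u with
  | _ x ih =>
  by_cases h : y u ∈ below K y u
  · refine Submodule.span_le.2 ?_ h
    rintro _ ⟨w, ⟨h1, h2⟩, rfl⟩
    exact ih _ (hx ▸ h2) w (h1.trans hu) rfl
  · exact Submodule.subset_span ⟨u, (mem_std y).2 ⟨hu, h⟩, rfl⟩

lemma std_indep (i : ℕ) : LinearIndependent K fun u : std K y i => y u.1 := by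
  classical
  rw [linearIndependent_iff']
  intro s g hg
  by_contra hc
  push Not at hc
  obtain ⟨u, hu, hmax⟩ := exists_max_image (s.filter fun u => g u ≠ 0) (fun u => toLex u.1)
    (by obtain ⟨u, h1, h2⟩ := hc; exact ⟨u, mem_filter.2 ⟨h1, h2⟩⟩)
  obtain ⟨hu1, hu2⟩ := mem_filter.1 hu
  apply ((mem_std y).1 u.2).2
  rw [← add_sum_erase _ _ hu1] at hg
  have h1 : ∑ w ∈ s.erase u, g w • y w.1 ∈ below K y u.1 := by
    refine Submodule.sum_mem _ fun w hw => ?_
    by_cases h2 : g w = 0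
    · simp [h2]
    · obtain ⟨h3, h4⟩ := mem_erase.1 hw
      refine Submodule.smul_mem _ _ (Submodule.subset_span ⟨w.1, ⟨?_, ?_⟩, rfl⟩)
      · rw [((mem_std y).1 u.2).1, ((mem_std y).1 w.2).1]
      · exact lt_of_le_of_ne (hmax w (mem_filter.2 ⟨h4, h2⟩)) fun h =>
          h3 (Subtype.ext (toLex.injective h))
  rw [← Submodule.smul_mem_iff _ hu2, eq_neg_of_add_eq_zero_left hg]
  exact Submodule.neg_mem _ h1

lemma card_std (i : ℕ) :
    finrank K (Submodule.span K (Set.range fun u : Mon σ i => y u.1)) = (std K y i).card := by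
  have h1 : Submodule.span K (Set.range fun u : Mon σ i => y u.1) =
      Submodule.span K (Set.range fun u : std K y i => y u.1) := by
    apply le_antisymm
    · refine Submodule.span_le.2 ?_
      rintro _ ⟨u, rfl⟩
      refine Submodule.span_mono ?_ (mem_span_std y i u.1 u.2)
      rintro _ ⟨w, hw, rfl⟩
      exact ⟨⟨w, hw⟩, rfl⟩
    · refine Submodule.span_mono ?_
      rintro _ ⟨w, rfl⟩
      exact ⟨⟨w.1, ((mem_std y).1 w.2).1⟩, rfl⟩
  rw [h1, finrank_span_eq_card (std_indep y i), Fintype.card_coe]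

lemma std_down (y' : (σ →₀ ℕ) → E') {i : ℕ} {v w : σ →₀ ℕ} (m : E →ₗ[K] E')
    (hm : ∀ x, m (y x) = y' (x + w)) (h : v + w ∈ std K y' (i + w.degree)) : v ∈ std K y i := by
  obtain ⟨h1, h2⟩ := (mem_std y').1 h
  rw [map_add] at h1
  refine (mem_std y).2 ⟨by omega, fun h3 => h2 ?_⟩
  have h4 := Submodule.mem_map_of_mem (f := m) h3
  rw [below, Submodule.map_span, hm] at h4
  refine Submodule.span_mono ?_ h4
  rintro _ ⟨_, ⟨x, ⟨h5, h6⟩, rfl⟩, rfl⟩
  refine ⟨x + w, ⟨by rw [map_add, map_add, h5], ?_⟩, (hm x).symm⟩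
  exact add_lt_add_left h6 (toLex w)

end std

lemma exists_span_range {K A : Type*} [Field K] [AddCommGroup A] [Module K A]
    [FiniteDimensional K A] (V : Submodule K A) :
    ∃ (r : ℕ) (y : Fin r → A), V = Submodule.span K (Set.range y) := by
  let b := Module.finBasis K V
  refine ⟨_, fun s => (b s : A), ?_⟩
  have h1 : (fun s => (b s : A)) = V.subtype ∘ b := rfl
  rw [h1, Set.range_comp, Submodule.span_image, b.span_eq, Submodule.map_top,
    Submodule.range_subtype]

theorem IsGorSeq.pow_le {K : Type u} [Field K] {d : ℕ} {h : ℕ → ℕ} (hG : IsGorSeq K d h) (i : ℕ)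
    (hi : 1 ≤ i) : h (i + 1) ^ i ≤ h i ^ (i + 1) := by
  obtain ⟨A, _, _, _, V, φ, -, hh, -⟩ := hG.data
  obtain ⟨r, y, rfl⟩ := exists_span_range V
  have e : ∀ j, h j = (std K (mono K y) j).card := fun j => by
    rw [← card_std, ← span_pow, hh]
  rw [e, e]
  rcases (std K (mono K y) (i + 1)).eq_empty_or_nonempty with h0 | h0
  · rw [h0, card_empty, zero_pow (by omega)]
    exact Nat.zero_le _
  · exact shadow_pow i _ _ (fun u hu => ((mem_std _).1 hu).1) (fun u hu => ((mem_std _).1 hu).1)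
      (fun v s hv => std_down _ _ (w := Finsupp.single s 1)
        (LinearMap.mulRight K (mono K y (Finsupp.single s 1))) (fun x => (mono_add y x _).symm)
        (by rwa [Finsupp.degree_single])) h0

end Pool.Agent.MP_708e57_al

end MrgPart0

-- ======== part 1: formerly Pool.Agent.MP_708e57_al.cf.Valley
section MrgPart1

-- ======== part 0: formerly Pool.Agent.MP_708e57_al.cf.Piece
section MrgPart0

/-!
Graph forms placed inside a common set of variables.
-/

namespace Pool.Agent.MP_708e57_al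

open Module Finset

universe u

set_option linter.unusedSectionVars false

section piece

variable {V E Q σ : Type} [Fintype V] [Fintype E] [Fintype Q] [DecidableEq V] [DecidableEq E]
  [DecidableEq Q] [Finite σ] (p r : E → V) (var : (E → Q) → V → σ)

/-- the variable of a vertex records the vertex and the labels of its edges -/
def Compat : Prop :=
  ∀ s s' v v', var s v = var s' v' ↔ v = v' ∧ ∀ e, p e = v ∨ r e = v → s e = s' e

/-- the product of the variables of the vertices in `I` -/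
noncomputable def vm (s : E → Q) (I : Finset V) : σ →₀ ℕ := ∑ v ∈ I, Finsupp.single (var s v) 1

lemma degree_vm (s : E → Q) (I : Finset V) : (vm var s I).degree = I.card := by
  simp [vm, map_sum]

lemma vm_add (s : E → Q) (I : Finset V) : vm var s I + vm var s Iᶜ = vm var s univ :=
  sum_add_sum_compl _ _

lemma vm_congr {s s' : E → Q} {I : Finset V} (h : ∀ v ∈ I, var s v = var s' v) :
    vm var s I = vm var s' I :=
  sum_congr rfl fun v hv => by rw [h v hv]

lemma vm_ne_zero {s : E → Q} {I : Finset V} {z : σ} :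
    vm var s I z ≠ 0 ↔ ∃ v ∈ I, var s v = z := by
  classical
  simp [vm, Finsupp.finsetSum_apply, Finsupp.single_apply]

variable {p r var}

lemma Compat.vm_var (hC : Compat p r var) (s : E → Q) (I : Finset V) (v : V) :
    vm var s I (var s v) = if v ∈ I then 1 else 0 := by
  classical
  have : ∀ w, var s w = var s v ↔ w = v := fun w => by rw [hC]; simp
  simp [vm, Finsupp.finsetSum_apply, Finsupp.single_apply, this]

lemma Compat.var_eq_of_add (hC : Compat p r var) {s s' : E → Q} {I : Finset V} {y : σ →₀ ℕ}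
    (h : vm var s I + y = vm var s' univ) : ∀ v ∈ I, var s v = var s' v := by
  intro v hv
  have h1 := DFunLike.congr_fun h (var s v)
  rw [Finsupp.add_apply, hC.vm_var, if_pos hv] at h1
  obtain ⟨w, -, hw⟩ := (vm_ne_zero var).1 (by omega : vm var s' univ (var s v) ≠ 0)
  obtain rfl := ((hC _ _ _ _).1 hw).1
  exact hw.symm

lemma Compat.exists_vm_of_add (hC : Compat p r var) {s : E → Q} {x y : σ →₀ ℕ}
    (h : x + y = vm var s univ) : ∃ I, x = vm var s I ∧ y = vm var s Iᶜ := by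
  have key : x = vm var s (univ.filter fun v => x (var s v) ≠ 0) := by
    ext z
    have h1 := DFunLike.congr_fun h z
    rw [Finsupp.add_apply] at h1
    by_cases hz : ∃ v, var s v = z
    · obtain ⟨v, rfl⟩ := hz
      rw [hC.vm_var] at h1 ⊢
      simp only [mem_univ, if_true, mem_filter, true_and] at h1 ⊢
      split_ifs <;> omega
    · have h2 : ∀ I, vm var s I z = 0 := fun I => by
        by_contra hc
        obtain ⟨v, -, hv⟩ := (vm_ne_zero var).1 hc
        exact hz ⟨v, hv⟩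
      rw [h2] at h1 ⊢
      omega
  refine ⟨_, key, ?_⟩
  rw [← vm_add var s (univ.filter fun v => x (var s v) ≠ 0), ← key] at h
  exact add_left_cancel h

open Classical in
lemma Compat.masked_upper (hC : Compat p r var) (K : Type u) [Field K] (j k n : ℕ)
    (hQ : 1 ≤ Fintype.card Q) (R C : (σ →₀ ℕ) → Prop)
    (hn : ∀ s (I : Finset V), I.card = j → R (vm var s I) → C (vm var s Iᶜ) →
      (univ.filter fun e => ¬(p e ∈ I ↔ r e ∈ I)).card ≤ n) :
    (Matrix.of fun (u : Mon σ j) (v : Mon σ k) =>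
      if (∃ s, u.1 + v.1 = vm var s univ) ∧ R u.1 ∧ C v.1 then (1 : K) else 0).rank ≤
      2 ^ Fintype.card V * Fintype.card Q ^ n := by
  let D := Σ I : {I : Finset V // (univ.filter fun e => ¬(p e ∈ I ↔ r e ∈ I)).card ≤ n},
    ({e // ¬(p e ∈ I.1 ↔ r e ∈ I.1)} → Q)
  let N : Matrix D (Mon σ k) K := Matrix.of fun c v =>
    if (∃ s : E → Q, (∀ e, s e.1 = c.2 e) ∧ v.1 = vm var s c.1.1ᶜ) ∧ C v.1 then 1 else 0
  refine le_trans (rank_le_of_rows _ N fun u => ?_) ((Matrix.rank_le_card_height N).trans ?_)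
  · by_cases h0 : ∃ v0 : Mon σ k, (∃ s, u.1 + v0.1 = vm var s univ) ∧ R u.1 ∧ C v0.1
    swap
    · left
      funext v
      exact if_neg fun h => h0 ⟨v, h⟩
    right
    obtain ⟨v0, ⟨s, hs⟩, hR, hC0⟩ := h0
    obtain ⟨I, hI, hI'⟩ := hC.exists_vm_of_add hs
    have hc : I.card = j := by rw [← degree_vm var s I, ← hI, u.2]
    refine ⟨⟨⟨I, hn s I hc (hI ▸ hR) (hI' ▸ hC0)⟩, fun e => s e.1⟩, ?_⟩
    funext v
    change (if (∃ s, u.1 + v.1 = vm var s univ) ∧ R u.1 ∧ C v.1 then (1 : K) else 0) =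
      if (∃ s' : E → Q, (∀ e : {e // ¬(p e ∈ I ↔ r e ∈ I)}, s' e.1 = s e.1) ∧
        v.1 = vm var s' Iᶜ) ∧ C v.1 then 1 else 0
    refine if_congr ?_ rfl rfl
    rw [and_iff_right hR, hI]
    refine and_congr_left fun _ => ?_
    constructor
    · rintro ⟨s', hs'⟩
      have h3 := hC.var_eq_of_add hs'
      refine ⟨s', fun e => ?_, ?_⟩
      · by_cases h4 : p e.1 ∈ I
        · exact (((hC _ _ _ _).1 (h3 _ h4)).2 _ (Or.inl rfl)).symm
        · have h5 : r e.1 ∈ I := by
            by_contra h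
            exact e.2 (by simp [h, h4])
          exact (((hC _ _ _ _).1 (h3 _ h5)).2 _ (Or.inr rfl)).symm
      · rw [vm_congr var h3, ← vm_add var s' I] at hs'
        exact add_left_cancel hs'
    · rintro ⟨s', hs', hv⟩
      refine ⟨fun e => if p e ∈ I ∨ r e ∈ I then s e else s' e, ?_⟩
      rw [← vm_add var _ I, hv]
      congr 1
      · refine vm_congr var fun x hx => (hC _ _ _ _).2 ⟨rfl, fun e h3 => (if_pos ?_).symm⟩
        rcases h3 with rfl | rfl
        · exact Or.inl hx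
        · exact Or.inr hx
      · refine vm_congr var fun x hx => (hC _ _ _ _).2 ⟨rfl, fun e h3 => ?_⟩
        have hx' := mem_compl.1 hx
        split_ifs with h4
        · refine hs' ⟨e, fun h => hx' ?_⟩
          rcases h3 with rfl | rfl
          · exact h4.elim id h.2
          · exact h4.elim h.1 id
        · rfl
  · rw [Fintype.card_sigma]
    refine (sum_le_card_nsmul _ _ (Fintype.card Q ^ n) fun I _ => ?_).trans ?_
    · rw [Fintype.card_fun]
      refine Nat.pow_le_pow_right hQ ?_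
      rw [Fintype.card_subtype]
      exact I.2
    · rw [smul_eq_mul, card_univ]
      refine Nat.mul_le_mul_right _ ?_
      rw [← Fintype.card_finset]
      exact Fintype.card_subtype_le _

end piece

lemma exists_types {T B i : ℕ} (h : T ≤ B.choose i) : ∃ β : Fin T → Fin i → Fin B,
    (∀ τ, Function.Injective (β τ)) ∧ ∀ τ τ', (∀ a, ∃ a', β τ a = β τ' a') → τ = τ' := by
  have h1 : Fintype.card (Fin T) ≤ Fintype.card (powersetCard i (univ : Finset (Fin B))) := by
    simpa using h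
  obtain ⟨e⟩ := Function.Embedding.nonempty_of_card_le h1
  have hc : ∀ τ, (e τ).1.card = i := fun τ => (mem_powersetCard.1 (e τ).2).2
  refine ⟨fun τ => (e τ).1.orderEmbOfFin (hc τ), fun τ => RelEmbedding.injective _,
    fun τ τ' hh => e.injective (Subtype.ext ?_)⟩
  refine eq_of_subset_of_card_le (fun x hx => ?_) (by rw [hc, hc])
  have h2 : x ∈ Set.range ((e τ).1.orderEmbOfFin (hc τ)) := by
    rw [range_orderEmbOfFin]
    exact hx
  obtain ⟨a, rfl⟩ := h2
  obtain ⟨a', ha'⟩ := hh a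
  simp only at ha'
  rw [ha']
  exact orderEmbOfFin_mem _ _ _

lemma exists_emb {α : Type} [Fintype α] {n N : ℕ} (h1 : Fintype.card α ≤ n) (h2 : n ≤ N) :
    ∃ e : α → Fin N, Function.Injective e ∧ ∀ a, (e a : ℕ) < n :=
  ⟨fun a => (Fintype.equivFin α a).castLE (h1.trans h2),
    (Fin.castLE_injective _).comp (Fintype.equivFin α).injective,
    fun a => (Fintype.equivFin α a).2.trans_le h1⟩

/-- the properties of the variables used for the pieces of one level -/
def VarOK {N T i k q : ℕ} (n m : ℕ)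
    (var : Fin T → (Fin i × Fin k → Fin q) → Fin i ⊕ Fin k → Fin N ⊕ Fin N) : Prop :=
  (∀ τ, Compat (fun e : Fin i × Fin k => Sum.inl e.1) (fun e => Sum.inr e.2) (var τ)) ∧
  (∀ τ s a, ∃ t : Fin N, var τ s (Sum.inl a) = Sum.inl t ∧ (t : ℕ) < n) ∧
  (∀ τ s b, ∃ t : Fin N, var τ s (Sum.inr b) = Sum.inr t ∧ (t : ℕ) < m) ∧
  (∀ τ τ' s s', (∀ a, ∃ a', var τ s (Sum.inl a) = var τ' s' (Sum.inl a')) → τ = τ') ∧
  (∀ τ τ' s s', (∀ b, ∃ b', var τ s (Sum.inr b) = var τ' s' (Sum.inr b')) → τ = τ')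

lemma exists_var {N T i k q n m B B' : ℕ} (h1 : T ≤ B.choose i) (h2 : T ≤ B'.choose k)
    (h3 : B * q ^ k ≤ n) (h4 : B' * q ^ i ≤ m) (h5 : n ≤ N) (h6 : m ≤ N) :
    ∃ var : Fin T → (Fin i × Fin k → Fin q) → Fin i ⊕ Fin k → Fin N ⊕ Fin N, VarOK n m var := by
  obtain ⟨β, hβ, hβ'⟩ := exists_types h1
  obtain ⟨γ, hγ, hγ'⟩ := exists_types h2
  obtain ⟨ex, hx, hx'⟩ := exists_emb (α := Fin B × (Fin k → Fin q)) (by simpa using h3) h5
  obtain ⟨ey, hy, hy'⟩ := exists_emb (α := Fin B' × (Fin i → Fin q)) (by simpa using h4) h6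
  refine ⟨fun τ s => Sum.map (fun a => ex (β τ a, fun b => s (a, b)))
    (fun b => ey (γ τ b, fun a => s (a, b))), fun τ => ?_, fun τ s a => ⟨_, rfl, hx' _⟩,
    fun τ s b => ⟨_, rfl, hy' _⟩, fun τ τ' s s' h => hβ' _ _ fun a => ?_,
    fun τ τ' s s' h => hγ' _ _ fun b => ?_⟩
  · rintro s s' (a | b) (a' | b')
    · simp only [Sum.map_inl, Sum.inl.injEq, hx.eq_iff, Prod.mk.injEq, (hβ τ).eq_iff,
        reduceCtorEq, or_false, Prod.forall]
      refine and_congr_right ?_
      rintro rfl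
      exact ⟨fun h x y hh => hh ▸ congrFun h y, fun h => funext fun y => h a y rfl⟩
    · simp
    · simp
    · simp only [Sum.map_inr, Sum.inr.injEq, hy.eq_iff, Prod.mk.injEq, (hγ τ).eq_iff,
        reduceCtorEq, false_or, Prod.forall]
      refine and_congr_right ?_
      rintro rfl
      exact ⟨fun h x y hh => hh ▸ congrFun h x, fun h => funext fun x => h x b rfl⟩
  · obtain ⟨a', ha⟩ := h a
    exact ⟨a', congrArg Prod.fst (hx (Sum.inl_injective ha))⟩
  · obtain ⟨b', hb⟩ := h b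
    exact ⟨b', congrArg Prod.fst (hy (Sum.inr_injective hb))⟩

lemma card_low {σ : Type} [Finite σ] {N : ℕ} (ι : Fin N → σ) (n j : ℕ) :
    Nat.card {u : Mon σ j // ∀ z, u.1 z ≠ 0 → ∃ t : Fin N, z = ι t ∧ (t : ℕ) < n} ≤
      n.multichoose j := by
  classical
  let φ : σ → ℕ := fun z => if h : ∃ t : Fin N, z = ι t ∧ (t : ℕ) < n then h.choose else 0
  let S : Set σ := {z | ∃ t : Fin N, z = ι t ∧ (t : ℕ) < n}
  have hφ : Set.InjOn φ S := by
    intro z hz z' hz' h
    have h1 : ∃ t : Fin N, z = ι t ∧ (t : ℕ) < n := hz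
    have h2 : ∃ t : Fin N, z' = ι t ∧ (t : ℕ) < n := hz'
    simp only [φ, dif_pos h1, dif_pos h2] at h
    rw [h1.choose_spec.1, h2.choose_spec.1, Fin.ext h]
  rw [← card_monS, ← Nat.card_eq_finsetCard]
  refine Nat.card_le_card_of_injective (fun u => ⟨u.1.1.mapDomain φ, mem_monS.2 ⟨?_, ?_⟩⟩) ?_
  · rw [Finsupp.degree_mapDomain, u.1.2]
  · intro s hs
    by_contra hc
    obtain ⟨z, hz, rfl⟩ := mem_image.1 (Finsupp.mapDomain_support (Finsupp.mem_support_iff.2 hc))
    have h1 := u.2 z (Finsupp.mem_support_iff.1 hz)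
    simp only [φ, dif_pos h1] at hs
    exact absurd h1.choose_spec.2 (not_lt.2 hs)
  · intro u v h
    refine Subtype.ext (Subtype.ext (Finsupp.mapDomain_injOn S hφ ?_ ?_ (congrArg Subtype.val h)))
    · exact fun z hz => u.2 z (Finsupp.mem_support_iff.1 hz)
    · exact fun z hz => v.2 z (Finsupp.mem_support_iff.1 hz)

end Pool.Agent.MP_708e57_al

end MrgPart0

-- ======== part 1: formerly Pool.Agent.MP_708e57_al.cf.Global
section MrgPart1

/-!
One form made of pieces of all levels that share their variables.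
-/

namespace Pool.Agent.MP_708e57_al

open Module Finset

universe u

lemma rank_sum_le {K m n ι : Type*} [Field K] [Fintype n] (s : Finset ι) (M : ι → Matrix m n K) :
    (∑ i ∈ s, M i).rank ≤ ∑ i ∈ s, (M i).rank := by
  classical
  induction s using Finset.induction_on with
  | empty => simp
  | insert a s ha ih =>
    rw [sum_insert ha, sum_insert ha]
    exact (matrix_rank_add_le _ _).trans (Nat.add_le_add_left ih _)

/-- the degrees below the middle -/
abbrev Lv (d : ℕ) := {i : Fin d // 1 ≤ i.1 ∧ 2 * i.1 < d}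

/-- the largest cut -/
def ecut (d i j : ℕ) : ℕ := if j ≤ i then j * (d - i) else i * (d - j)

/-- the degree in the second group of variables -/
noncomputable def dy {N : ℕ} : (Fin N ⊕ Fin N →₀ ℕ) →+ ℕ :=
  Finsupp.weight (Sum.elim (fun _ => 0) fun _ => 1)

/-- all variables of `u` are among the first `n` of a group -/
def Low {N : ℕ} (ι : Fin N → Fin N ⊕ Fin N) (n : ℕ) (u : Fin N ⊕ Fin N →₀ ℕ) : Prop :=
  ∀ z, u z ≠ 0 → ∃ t : Fin N, z = ι t ∧ (t : ℕ) < n

/-- squares of squarefree monomials -/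
def Mid {N : ℕ} (d : ℕ) (n : ℕ → ℕ) (u : Fin N ⊕ Fin N →₀ ℕ) : Prop :=
  ∃ s : Finset (Fin N), 2 * s.card = d ∧ (∀ t ∈ s, (t : ℕ) < n s.card) ∧
    u = ∑ t ∈ s, Finsupp.single (Sum.inl t) 2

lemma dy_left {N : ℕ} (s : Finset (Fin N)) (c : ℕ) :
    dy (∑ t ∈ s, Finsupp.single (Sum.inl t : Fin N ⊕ Fin N) c) = 0 := by
  simp [dy, map_sum, Finsupp.weight_single]

lemma sum_left_apply {N : ℕ} (s : Finset (Fin N)) (c : ℕ) (t : Fin N) :
    (∑ t ∈ s, Finsupp.single (Sum.inl t : Fin N ⊕ Fin N) c) (Sum.inl t) =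
      if t ∈ s then c else 0 := by
  simp [Finsupp.finsetSum_apply, Finsupp.single_apply]

section level

variable {N T i k q n m : ℕ}
  {var : Fin T → (Fin i × Fin k → Fin q) → Fin i ⊕ Fin k → Fin N ⊕ Fin N}

lemma VarOK.dy_univ (h : VarOK n m var) (τ : Fin T) (s : Fin i × Fin k → Fin q) :
    dy (vm (var τ) s univ) = k := by
  choose x hx _ using h.2.1 τ s
  choose y hy _ using h.2.2.1 τ s
  simp [dy, vm, Finsupp.weight_single, hx, hy]

lemma VarOK.low_left (h : VarOK n m var) (τ : Fin T) (s : Fin i × Fin k → Fin q) {n' : ℕ}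
    (hn : n ≤ n') {I : Finset (Fin i ⊕ Fin k)} (hI : I.toRight = ∅) :
    Low Sum.inl n' (vm (var τ) s I) := by
  intro z hz
  obtain ⟨a | b, hv, rfl⟩ := (vm_ne_zero _).1 hz
  · obtain ⟨t, h1, h2⟩ := h.2.1 τ s a
    exact ⟨t, h1, by omega⟩
  · exact absurd (mem_toRight.2 hv) (by simp [hI])

lemma VarOK.low_right (h : VarOK n m var) (τ : Fin T) (s : Fin i × Fin k → Fin q) {m' : ℕ}
    (hm : m ≤ m') {I : Finset (Fin i ⊕ Fin k)} (hI : I.toLeft = ∅) :
    Low Sum.inr m' (vm (var τ) s I) := by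
  intro z hz
  obtain ⟨a | b, hv, rfl⟩ := (vm_ne_zero _).1 hz
  · exact absurd (mem_toLeft.2 hv) (by simp [hI])
  · obtain ⟨t, h1, h2⟩ := h.2.2.1 τ s b
    exact ⟨t, h1, by omega⟩

lemma VarOK.pair_eq (h : VarOK n m var) {τ τ' τ'' : Fin T} {s s' s'' : Fin i × Fin k → Fin q}
    (e : vm (var τ) s (univ.disjSum ∅) + vm (var τ') s' (univ.disjSum ∅)ᶜ =
      vm (var τ'') s'' univ) : τ'' = τ ∧ τ = τ' ∧ s = s' := by
  have h1 : τ = τ'' := h.2.2.2.1 τ τ'' s s'' fun a => by
    have h2 := DFunLike.congr_fun e (var τ s (Sum.inl a))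
    rw [Finsupp.add_apply, (h.1 τ).vm_var, if_pos (by simp)] at h2
    obtain ⟨a' | b', -, hv⟩ := (vm_ne_zero _).1
      (by omega : vm (var τ'') s'' univ (var τ s (Sum.inl a)) ≠ 0)
    · exact ⟨a', hv.symm⟩
    · obtain ⟨t, h3, -⟩ := h.2.1 τ s a
      obtain ⟨t', h4, -⟩ := h.2.2.1 τ'' s'' b'
      rw [h3, h4] at hv
      cases hv
  have h2 : τ' = τ'' := h.2.2.2.2 τ' τ'' s' s'' fun b => by
    have h2 := DFunLike.congr_fun e (var τ' s' (Sum.inr b))
    rw [Finsupp.add_apply, (h.1 τ').vm_var, if_pos (by simp)] at h2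
    obtain ⟨a' | b', -, hv⟩ := (vm_ne_zero _).1
      (by omega : vm (var τ'') s'' univ (var τ' s' (Sum.inr b)) ≠ 0)
    · obtain ⟨t, h3, -⟩ := h.2.2.1 τ' s' b
      obtain ⟨t', h4, -⟩ := h.2.1 τ'' s'' a'
      rw [h3, h4] at hv
      cases hv
    · exact ⟨b', hv.symm⟩
  subst h1 h2
  refine ⟨rfl, rfl, funext fun x => ?_⟩
  have h3 := (h.1 τ').var_eq_of_add e (Sum.inl x.1) (by simp)
  have h4 := (h.1 τ').var_eq_of_add ((add_comm _ _).trans e) (Sum.inr x.2) (by simp)
  exact ((((h.1 τ') _ _ _ _).1 h3).2 x (Or.inl rfl)).trans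
    ((((h.1 τ') _ _ _ _).1 h4).2 x (Or.inr rfl)).symm

end level

lemma mixed_cut {d i j : ℕ} (hi : 2 * i < d) (hj : 2 * j ≤ d) (I : Finset (Fin i ⊕ Fin (d - i)))
    (hI : I.card = j) (h1 : I.toRight ≠ ∅) (h2 : Iᶜ.toLeft ≠ ∅) (h3 : 2 * j = d → I.toLeft ≠ ∅) :
    (univ.filter fun e : Fin i × Fin (d - i) =>
      ¬(Sum.inl e.1 ∈ I ↔ Sum.inr e.2 ∈ I)).card ≤ ecut d i j - 1 := by
  have e4 : (univ.filter fun e : Fin i × Fin (d - i) =>
      ¬(Sum.inl e.1 ∈ I ↔ Sum.inr e.2 ∈ I)).card ≤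
      I.toLeft.card * I.toRightᶜ.card + I.toLeftᶜ.card * I.toRight.card := by
    rw [← card_product, ← card_product]
    refine le_trans (card_le_card ?_) (card_union_le _ _)
    intro e he
    have := (mem_filter.1 he).2
    simp only [mem_union, mem_product, mem_toLeft, mem_compl, mem_toRight]
    tauto
  have e1 := card_add_card_compl I.toLeft
  have e2 := card_add_card_compl I.toRight
  have e3 := card_toLeft_add_card_toRight (u := I)
  rw [Fintype.card_fin] at e1 e2
  have hb : 1 ≤ I.toRight.card := card_pos.2 (nonempty_iff_ne_empty.2 h1)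
  have ha' : 1 ≤ I.toLeftᶜ.card := by
    obtain ⟨a, ha⟩ := nonempty_iff_ne_empty.2 h2
    exact card_pos.2 ⟨a, by simpa using ha⟩
  have ha : 2 * j = d → 1 ≤ I.toLeft.card := fun h =>
    card_pos.2 (nonempty_iff_ne_empty.2 (h3 h))
  generalize I.toLeft.card = a at *
  generalize I.toRight.card = b at *
  generalize I.toLeftᶜ.card = a' at *
  generalize I.toRightᶜ.card = b' at *
  refine e4.trans (Nat.le_sub_one_of_lt ?_)
  unfold ecut
  split_ifs with h
  · rw [← hI, ← e3, add_mul, mul_comm a']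
    exact add_lt_add_of_le_of_lt (Nat.mul_le_mul_left _ (by omega))
      (Nat.mul_lt_mul_of_pos_left (by omega) hb)
  · have e5 : d - j = a' + b' := by omega
    rw [e5, ← e1, add_mul]
    exact add_lt_add_of_le_of_lt (Nat.mul_le_mul_left _ (by omega))
      (Nat.mul_lt_mul_of_pos_left (by omega) ha')

section glob

variable (K : Type u) [Field K] {d T N : ℕ} {q : ℕ → ℕ} (n : ℕ → ℕ)
  (var : ∀ i : Lv d, Fin T → (Fin i.1.1 × Fin (d - i.1.1) → Fin (q i.1.1)) →
    Fin i.1.1 ⊕ Fin (d - i.1.1) → Fin N ⊕ Fin N)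

open Classical in
/-- the form -/
noncomputable def glob (u : Fin N ⊕ Fin N →₀ ℕ) : K :=
  (∑ l : (Σ _ : Lv d, Fin T), if ∃ s, u = vm (var l.1 l.2) s univ then 1 else 0) +
    if Mid d n u then 1 else 0

variable {n var} {m : ℕ → ℕ}

lemma glob_lower (hvar : ∀ i : Lv d, VarOK (n i.1.1) (m i.1.1) (var i)) (i : Lv d) :
    T * q i.1.1 ^ (i.1.1 * (d - i.1.1)) ≤ (cat (glob K n var) i.1.1 (d - i.1.1)).rank := by
  classical
  have hi := i.2
  have hdy : ∀ τ s τ' s', dy (vm (var i τ) s (univ.disjSum ∅) +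
      vm (var i τ') s' (univ.disjSum ∅)ᶜ) = d - i.1.1 := by
    intro τ s τ' s'
    choose x hx _ using (hvar i).2.1 τ s
    choose y hy _ using (hvar i).2.2.1 τ' s'
    have : ((univ : Finset (Fin i.1.1)).disjSum (∅ : Finset (Fin (d - i.1.1))))ᶜ =
        disjSum ∅ univ := by
      ext (a | b) <;> simp
    rw [this]
    simp [dy, vm, Finsupp.weight_single, hx, hy]
  have hval : ∀ τ s τ' s', glob K n var (vm (var i τ) s (univ.disjSum ∅) +
      vm (var i τ') s' (univ.disjSum ∅)ᶜ) = if τ = τ' ∧ s = s' then 1 else 0 := by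
    intro τ s τ' s'
    have h0 := hdy τ s τ' s'
    unfold glob
    rw [if_neg, add_zero, sum_eq_single ⟨i, τ⟩]
    · refine if_congr ⟨fun ⟨s'', h⟩ => ((hvar i).pair_eq h).2, ?_⟩ rfl rfl
      rintro ⟨rfl, rfl⟩
      exact ⟨s, vm_add _ _ _⟩
    · rintro ⟨i', τ''⟩ - hne
      refine if_neg fun ⟨s'', h⟩ => hne ?_
      rw [h, (hvar i').dy_univ] at h0
      have := i'.2
      obtain rfl : i' = i := Subtype.ext (Fin.ext (by omega))
      exact congrArg (Sigma.mk i') ((hvar i').pair_eq h).1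
    · simp
    · rintro ⟨t, -, -, h⟩
      rw [h, dy_left] at h0
      omega
  have := rank_ge_of_sub (ι := Fin T × (Fin i.1.1 × Fin (d - i.1.1) → Fin (q i.1.1)))
    (cat (glob K n var) i.1.1 (d - i.1.1))
    (fun x => ⟨vm (var i x.1) x.2 (univ.disjSum ∅), by simp [degree_vm]⟩)
    (fun x => ⟨vm (var i x.1) x.2 (univ.disjSum ∅)ᶜ, by simp [degree_vm, card_compl]⟩)
    (fun x => (hval _ _ _ _).trans (if_pos ⟨rfl, rfl⟩)) (fun x y h => by
      by_contra hc
      exact h ((hval _ _ _ _).trans (if_neg fun hh => hc (Prod.ext hh.1 hh.2))))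
  simpa using this

lemma glob_mid (hvar : ∀ i : Lv d, VarOK (n i.1.1) (m i.1.1) (var i)) (j : ℕ) (hj : 2 * j = d)
    (hN : n j ≤ N) : (n j).choose j ≤ (cat (glob K n var) j (d - j)).rank := by
  classical
  let S : Finset (Fin N) := univ.filter fun t => (t : ℕ) < n j
  have hS : S.card = n j := by simp [S, Fin.card_filter_val_lt, hN]
  let w : powersetCard j S → (Fin N ⊕ Fin N →₀ ℕ) := fun s =>
    ∑ t ∈ s.1, Finsupp.single (Sum.inl t) 1
  have hc : ∀ s : powersetCard j S, s.1.card = j := fun s => (mem_powersetCard.1 s.2).2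
  have hw : ∀ s, (w s).degree = j := fun s => by simp [w, map_sum, hc]
  have hval : ∀ s s', glob K n var (w s + w s') = if s = s' then 1 else 0 := by
    intro s s'
    unfold glob
    rw [sum_eq_zero, zero_add]
    · refine if_congr ⟨?_, ?_⟩ rfl rfl
      · rintro ⟨s'', -, -, h⟩
        refine Subtype.ext (Finset.ext fun t => ?_)
        have := DFunLike.congr_fun h (Sum.inl t)
        simp only [w, Finsupp.add_apply, sum_left_apply] at this
        split_ifs at this <;> simp_all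
      · rintro rfl
        refine ⟨s.1, by rw [hc, hj], fun t ht => ?_, ?_⟩
        · rw [hc]
          exact (mem_filter.1 ((mem_powersetCard.1 s.2).1 ht)).2
        · simp only [w, ← sum_add_distrib, ← Finsupp.single_add]
    · rintro ⟨i, τ⟩ -
      refine if_neg fun ⟨s'', h⟩ => ?_
      have h1 := congrArg dy h
      have := i.2
      rw [(hvar i).dy_univ, map_add, dy_left, dy_left] at h1
      omega
  have := rank_ge_of_sub (ι := powersetCard j S) (cat (glob K n var) j (d - j))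
    (fun s => ⟨w s, hw s⟩) (fun s => ⟨w s, by rw [hw]; omega⟩)
    (fun s => (hval _ _).trans (if_pos rfl)) (fun x y h => by
      by_contra hc
      exact h ((hval _ _).trans (if_neg hc)))
  rwa [Nat.card_eq_finsetCard, card_powersetCard, hS] at this

lemma glob_upper (hq : ∀ i, 1 ≤ q i) (hvar : ∀ i : Lv d, VarOK (n i.1.1) (m i.1.1) (var i))
    (j nr nr' nc : ℕ) (hj : 2 * j ≤ d) (h1 : ∀ i, j < i → 2 * i ≤ d → n i ≤ nr)
    (h2 : ∀ i, 1 ≤ i → i < j → m i ≤ nc) (h3 : n j ≤ nr ∨ (2 * j < d ∧ m j ≤ nc))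
    (h4 : 2 * j = d → ∀ i, 1 ≤ i → i < j → m i ≤ nr') :
    (cat (glob K n var) j (d - j)).rank ≤ nr.multichoose j + nr'.multichoose j +
      nc.multichoose (d - j) + ∑ i : Lv d, T * (2 ^ d * q i.1.1 ^ (ecut d i.1.1 j - 1)) := by
  classical
  let R : (Fin N ⊕ Fin N →₀ ℕ) → Prop := fun u => ¬(Low Sum.inl nr u ∨ Low Sum.inr nr' u)
  let C : (Fin N ⊕ Fin N →₀ ℕ) → Prop := fun u => ¬Low Sum.inr nc u
  let M1 : Matrix (Mon (Fin N ⊕ Fin N) j) (Mon (Fin N ⊕ Fin N) (d - j)) K :=
    Matrix.of fun u v => if R u.1 ∧ C v.1 then 0 else glob K n var (u.1 + v.1)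
  let M2 : (Σ _ : Lv d, Fin T) →
      Matrix (Mon (Fin N ⊕ Fin N) j) (Mon (Fin N ⊕ Fin N) (d - j)) K := fun l =>
    Matrix.of fun u v =>
      if (∃ s, u.1 + v.1 = vm (var l.1 l.2) s univ) ∧ R u.1 ∧ C v.1 then 1 else 0
  have e : cat (glob K n var) j (d - j) = M1 + ∑ l, M2 l := by
    ext u v
    simp only [Matrix.add_apply, Matrix.sum_apply, M1, M2, Matrix.of_apply, cat]
    by_cases h : R u.1 ∧ C v.1
    · simp only [h, and_self, if_true, and_true, zero_add, glob]
      rw [if_neg, add_zero]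
      rintro ⟨s, hs, hs', hu⟩
      refine h.1 (Or.inl fun z hz => ?_)
      have h5 : (∑ t ∈ s, Finsupp.single (Sum.inl t : Fin N ⊕ Fin N) 2) z ≠ 0 := by
        rw [← hu, Finsupp.add_apply]
        omega
      rw [Finsupp.finsetSum_apply] at h5
      obtain ⟨t, ht, h6⟩ := exists_ne_zero_of_sum_ne_zero h5
      refine ⟨t, (Finsupp.single_apply_ne_zero.1 h6).1, (hs' t ht).trans_le ?_⟩
      rcases Nat.lt_or_ge j s.card with h7 | h7
      · exact h1 _ h7 hs.le
      · obtain rfl : j = s.card := by omega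
        exact h3.resolve_right (by omega)
    · simp [h]
  rw [e]
  refine (matrix_rank_add_le _ _).trans (add_le_add ?_ ((rank_sum_le _ _).trans ?_))
  · have := rank_le_of_cover M1
      (Sum.elim (Subtype.val (p := fun u => Low Sum.inl nr u.1))
        (Subtype.val (p := fun u => Low Sum.inr nr' u.1)))
      (Subtype.val (p := fun u => Low Sum.inr nc u.1)) (by
        intro u v h
        have h5 : ¬(R u.1 ∧ C v.1) := fun hc => h (if_pos hc)
        simp only [R, C, not_and_or, not_not] at h5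
        rcases h5 with (h5 | h5) | h5
        · exact Or.inl ⟨Sum.inl ⟨u, h5⟩, rfl⟩
        · exact Or.inl ⟨Sum.inr ⟨u, h5⟩, rfl⟩
        · exact Or.inr ⟨⟨v, h5⟩, rfl⟩)
    rw [Nat.card_sum] at this
    exact this.trans (add_le_add (add_le_add (card_low _ _ _) (card_low _ _ _)) (card_low _ _ _))
  · rw [Fintype.sum_sigma]
    refine sum_le_sum fun i _ => ?_
    refine (sum_le_card_nsmul _ _ (2 ^ d * q i.1.1 ^ (ecut d i.1.1 j - 1)) fun τ _ => ?_).trans
      (by simp)
    obtain ⟨hi1, hi2⟩ := i.2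
    have := ((hvar i).1 τ).masked_upper K j (d - j) (ecut d i.1.1 j - 1) (by simpa using hq _) R C
      (fun s I hI hR hC => by
        have e1 := card_add_card_compl I.toLeft
        have e3 := card_toLeft_add_card_toRight (u := I)
        rw [Fintype.card_fin] at e1
        have hl : Iᶜ.toLeft = I.toLeftᶜ := by ext a; simp
        have key : I.toRight = ∅ → False := fun h => by
          rw [h, card_empty, hI] at e3
          rcases Nat.lt_or_ge j i.1.1 with h5 | h5
          · exact hR (Or.inl ((hvar i).low_left τ s (h1 _ h5 hi2.le) h))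
          · have h6 : i.1.1 = j := by omega
            rcases h3 with h3 | h3
            · exact hR (Or.inl ((hvar i).low_left τ s (h6 ▸ h3) h))
            · exact hC ((hvar i).low_right τ s (h6 ▸ h3.2)
                (by rw [hl]; exact card_eq_zero.1 (by omega)))
        refine mixed_cut hi2 hj I hI key (fun h => ?_) fun h h' => ?_
        · have h5 : I.toLeftᶜ.card = 0 := by rw [← hl, h, card_empty]
          rcases Nat.lt_or_ge i.1.1 j with h6 | h6
          · exact hC ((hvar i).low_right τ s (h2 _ hi1 h6) h)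
          · exact key (card_eq_zero.1 (by omega))
        · exact hR (Or.inr ((hvar i).low_right τ s (h4 h _ hi1 (by omega)) h')))
    rw [Fintype.card_sum, Fintype.card_fin, Fintype.card_fin, Fintype.card_fin,
      show i.1.1 + (d - i.1.1) = d by omega] at this
    refine le_of_eq_of_le (congrArg Matrix.rank ?_) this
    ext u v
    simp only [M2, Matrix.of_apply]
    by_cases h : (∃ s, u.1 + v.1 = vm (var i τ) s univ) ∧ R u.1 ∧ C v.1
    · rw [if_pos h, if_pos h]
    · rw [if_neg h, if_neg h]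

end glob

end Pool.Agent.MP_708e57_al

end MrgPart1

-- ======== part 2: formerly Pool.Agent.MP_708e57_al.cf.Num
section MrgPart2

/-!
Numerical estimates.
-/

namespace Pool.Agent.MP_708e57_al

/-- the number of variables that gives `x` monomials of degree `k` -/
noncomputable def nu (k : ℕ) (x : ℝ) : ℝ := ((k.factorial : ℝ) * x) ^ ((k : ℝ)⁻¹)

lemma nu_nonneg (k : ℕ) {x : ℝ} (hx : 0 ≤ x) : 0 ≤ nu k x := by
  unfold nu
  positivity

lemma nu_pow {k : ℕ} (hk : k ≠ 0) {x : ℝ} (hx : 0 ≤ x) : nu k x ^ k = k.factorial * x :=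
  Real.rpow_inv_natCast_pow (by positivity) hk

lemma le_nu {k : ℕ} (hk : k ≠ 0) {x w : ℝ} (hx : 0 ≤ x) (h : w ^ k ≤ k.factorial * x) :
    w ≤ nu k x :=
  le_of_pow_le_pow_left₀ hk (nu_nonneg k hx) (by rwa [nu_pow hk hx])

lemma nu_le {k : ℕ} (hk : k ≠ 0) {x w : ℝ} (hx : 0 ≤ x) (hw : 0 ≤ w)
    (h : k.factorial * x ≤ w ^ k) : nu k x ≤ w :=
  le_of_pow_le_pow_left₀ hk hw (by rwa [nu_pow hk hx])

lemma nu_mono (k : ℕ) {x y : ℝ} (hx : 0 ≤ x) (h : x ≤ y) : nu k x ≤ nu k y :=
  Real.rpow_le_rpow (by positivity) (by gcongr) (by positivity)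

lemma nu_pow_div {k : ℕ} (hk : k ≠ 0) {x : ℝ} (hx : 0 ≤ x) : nu k x ^ k / k.factorial = x := by
  rw [nu_pow hk hx, mul_div_cancel_left₀ _ (by positivity)]

lemma one_le_fact (k : ℕ) : (1 : ℝ) ≤ k.factorial := by exact_mod_cast k.factorial_pos

lemma fact_le {k d : ℕ} (h : k ≤ d) : (k.factorial : ℝ) ≤ d.factorial := by
  exact_mod_cast Nat.factorial_le h

lemma le_nu_of_pow {k d : ℕ} (hk : k ≠ 0) (hd : k ≤ d) {x w : ℝ} (hw : 1 ≤ w) (h : w ^ d ≤ x) :
    w ≤ nu k x := by
  have hx : 0 ≤ x := le_trans (by positivity) h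
  exact le_nu hk hx ((pow_le_pow_right₀ hw hd).trans
    (h.trans (le_mul_of_one_le_left hx (one_le_fact k))))

lemma alpha_eq (k : ℕ) {x : ℝ} (hx : 0 ≤ x) : alpha k x = nu (k + 1) x ^ k / k.factorial := by
  unfold alpha nu
  rw [← Real.rpow_natCast, ← Real.rpow_mul (by positivity), div_eq_inv_mul (k : ℝ)]
  push_cast
  rfl

lemma alpha_nonneg (k : ℕ) {x : ℝ} (hx : 0 ≤ x) : 0 ≤ alpha k x := by
  unfold alpha
  positivity

lemma alpha_mono (k : ℕ) {x y : ℝ} (hx : 0 ≤ x) (h : x ≤ y) : alpha k x ≤ alpha k y := by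
  unfold alpha
  gcongr

lemma alpha_smul (k : ℕ) {s x : ℝ} (hs : 0 ≤ s) (hs' : s ≤ 1) (hx : 0 ≤ x) :
    s * alpha k x ≤ alpha k (s * x) := by
  unfold alpha
  rw [mul_left_comm, Real.mul_rpow hs (by positivity), ← mul_div_assoc]
  have h1 : s ≤ s ^ ((k : ℝ) / (k + 1)) := by
    have := Real.rpow_le_rpow_of_exponent_ge' hs hs' (y := 1) (z := (k : ℝ) / (k + 1))
      (by positivity) (div_le_one_of_le₀ (by linarith) (by positivity))
    rwa [Real.rpow_one] at this
  gcongr

lemma alpha_small {d k : ℕ} (hk : k ≤ d) {γ x : ℝ} (hγ : 0 < γ) (hγ' : γ ≤ 1)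
    (hx : ((d + 1) / γ) ^ (d + 1) ≤ x) : alpha k x ≤ γ * x := by
  have hd : (0 : ℝ) ≤ d := Nat.cast_nonneg d
  have h1 : (1 : ℝ) ≤ (d + 1) / γ := by
    rw [le_div_iff₀ hγ]
    linarith
  have hx0 : 0 ≤ x := le_trans (by positivity) hx
  have h2 := le_nu_of_pow (k := k + 1) (by omega) (by omega) h1 hx
  have h3 := nu_pow (k := k + 1) (by omega) hx0
  rw [alpha_eq k hx0, div_le_iff₀ (by positivity)]
  rw [div_le_iff₀ hγ] at h2
  have h4 : (k : ℝ) ≤ d := by exact_mod_cast hk
  have h5 : 0 ≤ nu (k + 1) x ^ k := pow_nonneg (nu_nonneg _ hx0) _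
  rw [pow_succ, Nat.factorial_succ] at h3
  push_cast at h3
  refine le_of_mul_le_mul_left ?_ (by positivity : (0 : ℝ) < k + 1)
  calc (k + 1) * nu (k + 1) x ^ k ≤ (nu (k + 1) x * γ) * nu (k + 1) x ^ k := by
        gcongr
        linarith
    _ = γ * (nu (k + 1) x ^ k * nu (k + 1) x) := by ring
    _ = _ := by rw [h3]; ring

lemma alpha_le_of_pow {k n x : ℕ}
    (h : ((k + 1).factorial * n) ^ k ≤ (k.factorial * x) ^ (k + 1)) : alpha k n ≤ x := by
  rw [alpha_eq k (Nat.cast_nonneg n), div_le_iff₀ (by positivity)]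
  refine le_of_pow_le_pow_left₀ (Nat.succ_ne_zero k) (by positivity) ?_
  rw [← pow_mul, mul_comm k, pow_mul, nu_pow (Nat.succ_ne_zero k) (Nat.cast_nonneg n), mul_comm (x : ℝ)]
  exact_mod_cast h

lemma side_bound {d k H G n x : ℕ} (hk : k ≤ d) {ε : ℝ} (hε : 0 < ε) (hε' : ε ≤ 1)
    (hH : ((d + 1) / (ε ^ 2 / (d + 1))) ^ (d + 1) ≤ (H : ℝ)) (hx : x ≤ H) (hG : G ≤ H + n + k * x)
    (h : ((k + 1).factorial * n) ^ k ≤ (k.factorial * x) ^ (k + 1)) :
    (1 - ε) * alpha k G ≤ x + ε * H := by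
  have hd : (0 : ℝ) ≤ d := Nat.cast_nonneg d
  have hH0 : (0 : ℝ) ≤ H := Nat.cast_nonneg H
  have hG0 : (0 : ℝ) ≤ G := Nat.cast_nonneg G
  have hx0 : (0 : ℝ) ≤ x := Nat.cast_nonneg x
  have h1 := alpha_le_of_pow h
  by_cases hc : ((d : ℝ) + 1) * H ≤ ε * G
  · have h2 : G ≤ n + (d + 1) * H := by
      have := Nat.mul_le_mul hk hx
      nlinarith
    have h3 : (G : ℝ) ≤ n + (d + 1) * H := by exact_mod_cast h2
    have h4 := alpha_smul k (s := 1 - ε) (by linarith) (by linarith) hG0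
    have h5 := alpha_mono k (x := (1 - ε) * G) (y := n) (mul_nonneg (by linarith) hG0) (by linarith)
    have : 0 ≤ ε * H := by positivity
    linarith
  · have h2 : (G : ℝ) ≤ (d + 1) * H / ε := by
      rw [le_div_iff₀ hε]
      linarith
    have h3 : (H : ℝ) ≤ (d + 1) * H / ε := by
      rw [le_div_iff₀ hε]
      nlinarith
    have h4 := alpha_small hk (γ := ε ^ 2 / (d + 1)) (by positivity)
      (div_le_one_of_le₀ (by nlinarith) (by positivity)) (hH.trans h3)
    have h5 : ε ^ 2 / (d + 1) * ((d + 1) * H / ε) = ε * H := by field_simp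
    have h6 := alpha_mono k hG0 h2
    have h7 := alpha_nonneg k hG0
    nlinarith

lemma exists_choose {d k : ℕ} (hk : k ≠ 0) (hd : k ≤ d) {η x : ℝ} (hη : 0 < η) (hη' : η ≤ 1)
    (hx : ((d + 1) / η) ^ d ≤ x) : ∃ B : ℕ, x ≤ B.choose k ∧ (B : ℝ) ≤ (1 + η) * nu k x := by
  have hd0 : (0 : ℝ) ≤ d := Nat.cast_nonneg d
  have h1 : (1 : ℝ) ≤ (d + 1) / η := by
    rw [le_div_iff₀ hη]
    linarith
  have hx0 : 0 ≤ x := le_trans (by positivity) hx
  have h2 := le_nu_of_pow hk hd h1 hx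
  have h3 := nu_nonneg k hx0
  refine ⟨⌈nu k x⌉₊ + k, ?_, ?_⟩
  · refine le_trans ?_ (Nat.pow_le_choose k _)
    rw [← nu_pow_div hk hx0]
    gcongr
    rw [nu_pow_div hk hx0]
    refine (Nat.le_ceil _).trans ?_
    exact_mod_cast (by omega : ⌈nu k x⌉₊ ≤ ⌈nu k x⌉₊ + k + 1 - k)
  · have h4 := (Nat.ceil_lt_add_one h3).le
    have h5 : (k : ℝ) ≤ d := by exact_mod_cast hd
    rw [div_le_iff₀ hη] at h2
    push_cast
    linarith

lemma mc_le {d j n : ℕ} (hd : 1 ≤ d) (hj : j ≤ d) {η w : ℝ} (hη : 0 < η) (hη' : η ≤ 1) (hw : 0 ≤ w)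
    (hn : (n : ℝ) ≤ (1 + η) * w) :
    (n.multichoose j : ℝ) ≤ (1 + 2 * η) ^ d * (w ^ j / j.factorial) + (3 * d / η) ^ d := by
  have h1 : (n.multichoose j : ℝ) ≤ ((n : ℝ) + j) ^ j / j.factorial := by
    rw [Nat.multichoose_eq]
    refine (Nat.choose_le_pow_div j _).trans ?_
    gcongr
    exact_mod_cast Nat.sub_le _ _
  have hj' : (j : ℝ) ≤ d := by exact_mod_cast hj
  have hd' : (1 : ℝ) ≤ d := by exact_mod_cast hd
  refine h1.trans ?_
  by_cases hc : (d : ℝ) ≤ η * w
  · refine le_trans ?_ (le_add_of_nonneg_right (by positivity))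
    rw [← mul_div_assoc]
    gcongr
    refine (pow_le_pow_left₀ (by positivity) (by linarith : (n : ℝ) + j ≤ (1 + 2 * η) * w) j).trans ?_
    rw [mul_pow]
    gcongr
    linarith
  · refine le_trans ?_ (le_add_of_nonneg_left (by positivity))
    have h2 : (n : ℝ) + j ≤ 3 * d / η := by
      rw [le_div_iff₀ hη]
      nlinarith
    have h3 : (1 : ℝ) ≤ 3 * d / η := by
      rw [le_div_iff₀ hη]
      linarith
    exact (div_le_self (by positivity) (one_le_fact j)).trans
      ((pow_le_pow_left₀ (by positivity) h2 j).trans (pow_le_pow_right₀ h3 hj))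

lemma exists_base {D e : ℕ} (he : e ≠ 0) (hD : e ≤ D) {η R T x : ℝ} (hη : 0 < η) (hT : 0 < T)
    (hR : 1 ≤ R) (hR' : D ≤ η * R) (hx : T * R ^ D ≤ x) :
    ∃ q : ℕ, R - 1 ≤ q ∧ T * q ^ e ≤ x ∧ (1 - η) * x ≤ T * q ^ e := by
  have hx0 : 0 ≤ x / T := div_nonneg (le_trans (by positivity) hx) hT.le
  set w := (x / T) ^ ((e : ℝ)⁻¹) with hw
  have hw0 : 0 ≤ w := by positivity
  have h1 : w ^ e = x / T := Real.rpow_inv_natCast_pow hx0 he
  have h2 : R ≤ w := le_of_pow_le_pow_left₀ he hw0 (by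
    rw [h1, le_div_iff₀' hT]
    exact le_trans (by gcongr) hx)
  have h3 := Nat.floor_le hw0
  have h4 := (Nat.lt_floor_add_one w).le
  have h5 : x = T * w ^ e := by rw [h1]; field_simp
  have hw1 : 0 < w := by linarith
  refine ⟨⌊w⌋₊, by linarith, by rw [h5]; gcongr, ?_⟩
  have h6 : w * (1 + -w⁻¹) ≤ ⌊w⌋₊ := by
    rw [mul_add, mul_neg, mul_inv_cancel₀ hw1.ne']
    linarith
  have h7 : w⁻¹ ≤ 1 := inv_le_one_of_one_le₀ (by linarith)
  have h8 := one_add_mul_le_pow (a := -w⁻¹) (by linarith) e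
  have h9 : (e : ℝ) * w⁻¹ ≤ η := by
    rw [← div_eq_mul_inv, div_le_iff₀ hw1]
    have : (e : ℝ) ≤ D := by exact_mod_cast hD
    nlinarith
  have h10 := pow_le_pow_left₀ (mul_nonneg hw0 (by linarith)) h6 e
  rw [mul_pow] at h10
  rw [h5, mul_left_comm]
  refine mul_le_mul_of_nonneg_left (le_trans ?_ h10) hT.le
  rw [mul_comm]
  exact mul_le_mul_of_nonneg_left (by linarith) (by positivity)

lemma nu_mul_pow {k : ℕ} (hk : k ≠ 0) {x y z : ℝ} (hx : 0 ≤ x) (hy : 0 ≤ y) (h : x * y ^ k ≤ z) :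
    nu k x * y ≤ nu k z :=
  le_nu hk (le_trans (by positivity) h) (by
    rw [mul_pow, nu_pow hk hx, mul_assoc]
    gcongr)

end Pool.Agent.MP_708e57_al

end MrgPart2

-- ======== part 3: formerly Pool.Agent.MP_708e57_al.cf.Approx
section MrgPart3

/-!
Approximate realization of prescribed catalecticant ranks.
-/

namespace Pool.Agent.MP_708e57_al

open Finset

universe u

lemma exists_level {d : ℕ} {η R x : ℝ} {T : ℕ} (hη : 0 < η) (hη' : η ≤ 1)
    (hT : ((d + 1) / η) ^ d ≤ (T : ℝ)) (hT1 : 1 ≤ T) (hR : 2 ≤ R) (hR' : (d * d : ℕ) ≤ η * R)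
    (i : ℕ) (hx : 1 ≤ i → 2 * i ≤ d → T * R ^ (d * d) ≤ x) :
    ∃ q n m : ℕ, 1 ≤ q ∧ (1 ≤ i → 2 * i ≤ d → (n : ℝ) ≤ (1 + η) * nu i x) ∧
      (1 ≤ i → 2 * i = d → x ≤ n.choose i) ∧
      (1 ≤ i → 2 * i < d → (m : ℝ) ≤ (1 + η) * nu (d - i) x ∧ R - 1 ≤ q ∧
        (T : ℝ) * q ^ (i * (d - i)) ≤ x ∧ (1 - η) * x ≤ T * q ^ (i * (d - i)) ∧
        ∃ B B' : ℕ, T ≤ B.choose i ∧ T ≤ B'.choose (d - i) ∧ B * q ^ (d - i) ≤ n ∧
          B' * q ^ i ≤ m) := by
  have hT0 : (0 : ℝ) < T := by exact_mod_cast hT1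
  by_cases h1 : 1 ≤ i ∧ 2 * i < d
  · obtain ⟨q, hq1, hq2, hq3⟩ := exists_base (D := d * d) (e := i * (d - i))
      (Nat.mul_pos h1.1 (by omega)).ne' (Nat.mul_le_mul (by omega) (by omega)) hη hT0
      (by linarith) hR' (hx h1.1 h1.2.le)
    obtain ⟨B, hB1, hB2⟩ := exists_choose (k := i) (by omega) (by omega) hη hη' hT
    obtain ⟨B', hB1', hB2'⟩ := exists_choose (k := d - i) (by omega) (by omega) hη hη' hT
    have hq0 : (0 : ℝ) ≤ q := Nat.cast_nonneg q
    refine ⟨q, B * q ^ (d - i), B' * q ^ i, by exact_mod_cast (by linarith : (1 : ℝ) ≤ q),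
      fun _ _ => ?_, fun _ _ => by omega, fun _ _ => ⟨?_, hq1, hq2, hq3, B, B',
        by exact_mod_cast hB1, by exact_mod_cast hB1', le_rfl, le_rfl⟩⟩
    · have := nu_mul_pow (k := i) (z := x) (by omega) hT0.le (pow_nonneg hq0 (d - i))
        (by rwa [← pow_mul, mul_comm (d - i)])
      push_cast
      refine (mul_le_mul_of_nonneg_right hB2 (by positivity)).trans ?_
      rw [mul_assoc]
      gcongr
    · have := nu_mul_pow (k := d - i) (z := x) (by omega) hT0.le (pow_nonneg hq0 i)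
        (by rwa [← pow_mul])
      push_cast
      refine (mul_le_mul_of_nonneg_right hB2' (by positivity)).trans ?_
      rw [mul_assoc]
      gcongr
  by_cases h2 : 1 ≤ i ∧ 2 * i = d
  · obtain ⟨B, hB1, hB2⟩ := exists_choose (k := i) (x := x) (by omega) (by omega) hη hη'
      (hT.trans ((le_mul_of_one_le_right hT0.le (one_le_pow₀ (by linarith))).trans
        (hx h2.1 h2.2.le)))
    exact ⟨1, B, 0, le_rfl, fun _ _ => hB2, fun _ _ => hB1, fun _ _ => by omega⟩
  · exact ⟨1, 0, 0, le_rfl, fun _ _ => by omega, fun _ _ => by omega, fun _ _ => by omega⟩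

theorem approx (d : ℕ) (hd : 1 ≤ d) (η : ℝ) (hη : 0 < η) (hη' : η ≤ 1) : ∃ x0 : ℝ, 0 ≤ x0 ∧
    ∀ (K : Type u) [Field K] (t : ℕ → ℝ), (∀ j, 1 ≤ j → 2 * j ≤ d → x0 ≤ t j) →
      ∃ g : ℕ → ℕ, Rz K d g ∧ (∀ j, 1 ≤ j → 2 * j ≤ d → (1 - η) * t j ≤ g j) ∧
        ∀ (j : ℕ) (wr wr' wc W : ℝ), 1 ≤ j → 2 * j ≤ d → 0 ≤ wr → 0 ≤ wr' → 0 ≤ wc → 0 ≤ W →
          (∀ i, j < i → 2 * i ≤ d → nu i (t i) ≤ wr) →
          (∀ i, 1 ≤ i → i < j → nu (d - i) (t i) ≤ wc) →
          (nu j (t j) ≤ wr ∨ (2 * j < d ∧ nu (d - j) (t j) ≤ wc)) →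
          (2 * j = d → ∀ i, 1 ≤ i → i < j → nu (d - i) (t i) ≤ wr') →
          (∀ i, 1 ≤ i → 2 * i < d → ∀ q : ℝ, 0 ≤ q → q ^ (i * (d - i)) ≤ t i →
            q ^ ecut d i j ≤ W) →
          (g j : ℝ) ≤ (1 + 2 * η) ^ d * (wr ^ j / j.factorial + wr' ^ j / j.factorial +
            wc ^ (d - j) / (d - j).factorial) + 3 * (3 * d / η) ^ d + η * W := by
  obtain ⟨T0, hT0⟩ := exists_nat_ge (((d + 1) / η : ℝ) ^ d)
  set T := T0 + 1 with hT
  have hT1 : (1 : ℝ) ≤ T := by exact_mod_cast (by omega : 1 ≤ T)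
  set R : ℝ := 2 + ((d * d : ℕ) + d * T * 2 ^ d) / η with hR
  have hR0 : 0 ≤ (((d * d : ℕ) : ℝ) + d * T * 2 ^ d) / η := by positivity
  have hR1 : η * R = 2 * η + ((d * d : ℕ) + d * T * 2 ^ d) := by rw [hR]; field_simp
  have hR2 : (0 : ℝ) ≤ d * T * 2 ^ d := by positivity
  have hR3 : (0 : ℝ) ≤ (d * d : ℕ) := by positivity
  refine ⟨T * R ^ (d * d), by positivity, fun K _ t ht => ?_⟩
  have ht0 : ∀ j, 1 ≤ j → 2 * j ≤ d → 0 ≤ t j := fun j h1 h2 => le_trans (by positivity) (ht j h1 h2)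
  choose q n m hq hn hmid hlv using fun i => exists_level (T := T) (R := R) (x := t i) hη hη'
    (hT0.trans (by exact_mod_cast (by omega : T0 ≤ T))) (by omega) (by linarith) (by linarith)
    i (ht i)
  set N := ∑ i ∈ range (d + 1), (n i + m i) with hN
  have hnN : ∀ i, i ≤ d → n i + m i ≤ N := fun i hi =>
    single_le_sum (f := fun i => n i + m i) (fun _ _ => Nat.zero_le _) (mem_range.2 (by omega))
  have hvar : ∀ i : Lv d, ∃ var : Fin T → (Fin i.1.1 × Fin (d - i.1.1) → Fin (q i.1.1)) →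
      Fin i.1.1 ⊕ Fin (d - i.1.1) → Fin N ⊕ Fin N, VarOK (n i.1.1) (m i.1.1) var := fun i => by
    obtain ⟨-, -, -, -, B, B', h1, h2, h3, h4⟩ := hlv i.1.1 i.2.1 i.2.2
    have := hnN i.1.1 i.1.2.le
    exact exists_var (N := N) h1 h2 h3 h4 (by omega) (by omega)
  choose var hvar using hvar
  refine ⟨fun j => (cat (glob K n var) j (d - j)).rank, ⟨_, inferInstance, _, fun _ _ _ => rfl⟩,
    fun j h1 h2 => ?_, fun j wr wr' wc W h1 h2 a1 a2 a3 a4 b1 b2 b3 b4 b5 => ?_⟩
  · rcases h2.eq_or_lt with h3 | h3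
    · have h4 := glob_mid K hvar j h3 (by have := hnN j (by omega); omega)
      have h5 := (hmid j h1 h3).trans (Nat.cast_le.2 h4)
      have := mul_nonneg hη.le (ht0 j h1 h2)
      linarith
    · have h4 := glob_lower K hvar ⟨⟨j, by omega⟩, h1, h3⟩
      refine (hlv j h1 h3).2.2.2.1.trans ?_
      exact_mod_cast h4
  have hfl : ∀ {a : ℕ} {y w : ℝ}, (a : ℝ) ≤ (1 + η) * y → y ≤ w → a ≤ ⌊(1 + η) * w⌋₊ :=
    fun h h' => Nat.le_floor (h.trans (by gcongr))
  have h3 := glob_upper K hq hvar j ⌊(1 + η) * wr⌋₊ ⌊(1 + η) * wr'⌋₊ ⌊(1 + η) * wc⌋₊ h2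
    (fun i c1 c2 => hfl (hn i (by omega) c2) (b1 i c1 c2))
    (fun i c1 c2 => hfl (hlv i c1 (by omega)).1 (b2 i c1 c2))
    (b3.imp (hfl (hn j h1 h2)) fun h => ⟨h.1, hfl (hlv j h1 h.1).1 h.2⟩)
    (fun h i c1 c2 => hfl (hlv i c1 (by omega)).1 (b4 h i c1 c2))
  have h4 := mc_le (j := j) hd (by omega) hη hη' a1 (Nat.floor_le (by positivity))
  have h5 := mc_le (j := j) hd (by omega) hη hη' a2 (Nat.floor_le (by positivity))
  have h6 := mc_le (j := d - j) hd (by omega) hη hη' a3 (Nat.floor_le (by positivity))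
  have h7 : ((∑ i : Lv d, T * (2 ^ d * q i.1.1 ^ (ecut d i.1.1 j - 1)) : ℕ) : ℝ) ≤ η * W := by
    have hd0 : (0 : ℝ) < d := by exact_mod_cast hd
    rw [Nat.cast_sum]
    refine (sum_le_card_nsmul _ _ (η * W / d) fun i _ => ?_).trans ?_
    · obtain ⟨c1, c2⟩ := i.2
      obtain ⟨-, e1, e2, -⟩ := hlv i.1.1 c1 c2
      have hq0 : (0 : ℝ) < q i.1.1 := by exact_mod_cast hq i.1.1
      have e3 := b5 i.1.1 c1 c2 (q i.1.1) hq0.le
        ((le_mul_of_one_le_left (by positivity) hT1).trans e2)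
      have e4 : 1 ≤ ecut d i.1.1 j := by
        unfold ecut
        split_ifs
        · exact Nat.mul_pos h1 (by omega)
        · exact Nat.mul_pos c1 (by omega)
      rw [← Nat.sub_add_cancel e4, pow_succ] at e3
      have e5 : (d : ℝ) * T * 2 ^ d ≤ η * q i.1.1 := by nlinarith
      rw [le_div_iff₀ hd0]
      push_cast
      calc _ = (d : ℝ) * T * 2 ^ d * q i.1.1 ^ (ecut d i.1.1 j - 1) := by ring
        _ ≤ η * q i.1.1 * q i.1.1 ^ (ecut d i.1.1 j - 1) := by gcongr
        _ = η * (q i.1.1 ^ (ecut d i.1.1 j - 1) * q i.1.1) := by ring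
        _ ≤ η * W := by gcongr
    · rw [nsmul_eq_mul, card_univ, mul_div_assoc']
      refine div_le_of_le_mul₀ hd0.le (by positivity) ?_
      rw [mul_comm]
      refine mul_le_mul_of_nonneg_left ?_ (by positivity)
      exact_mod_cast (Fintype.card_subtype_le _).trans (Fintype.card_fin d).le
  have h8 := (Nat.cast_le (α := ℝ)).2 h3
  rw [Nat.cast_add, Nat.cast_add, Nat.cast_add] at h8
  linarith

end Pool.Agent.MP_708e57_al

end MrgPart3

-- ======== part 4: formerly Pool.Agent.MP_708e57_al.cf.Valley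
section MrgPart4

/-!
The two-sided lower bound for an entry of a Gorenstein sequence.
-/

namespace Pool.Agent.MP_708e57_al

open Module Finset Polynomial

universe u

section comb

variable {σ : Type} [Fintype σ] [LinearOrder σ]

/-- the monomials of `S` divisible by `s`, divided by `s` -/
noncomputable def lk' (S : Finset (σ →₀ ℕ)) (s : σ) : Finset (σ →₀ ℕ) :=
  (S.filter fun u => u s ≠ 0).image fun u => u - Finsupp.single s 1

omit [Fintype σ] in
lemma mem_lk' {S : Finset (σ →₀ ℕ)} {s : σ} {v : σ →₀ ℕ} :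
    v ∈ lk' S s ↔ v + Finsupp.single s 1 ∈ S := by
  simp only [lk', mem_image, mem_filter]
  constructor
  · rintro ⟨u, ⟨h1, h2⟩, rfl⟩
    rwa [sub_add_single h2]
  · intro h1
    exact ⟨_, ⟨h1, by simp⟩, add_tsub_cancel_right _ _⟩

lemma sum_card_lk' (S : Finset (σ →₀ ℕ)) : ∑ s, (lk' S s).card = ∑ u ∈ S, u.support.card := by
  have h1 : ∀ s, (lk' S s).card = ∑ u ∈ S, if u s ≠ 0 then 1 else 0 := by
    intro s
    rw [← card_filter]
    refine card_image_of_injOn fun u hu v hv huv => ?_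
    rw [← sub_add_single (mem_filter.1 hu).2, ← sub_add_single (mem_filter.1 hv).2]
    exact congrArg (· + Finsupp.single s 1) huv
  simp only [h1]
  rw [sum_comm]
  refine sum_congr rfl fun u _ => ?_
  rw [← card_filter]
  congr 1
  ext s
  simp

omit [Fintype σ] [LinearOrder σ] in
lemma card_support_le (u : σ →₀ ℕ) : u.support.card ≤ u.degree := by
  rw [Finsupp.degree_apply, card_eq_sum_ones]
  exact sum_le_sum fun s hs => Nat.one_le_iff_ne_zero.2 (Finsupp.mem_support_iff.1 hs)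

omit [Fintype σ] [LinearOrder σ] in
lemma degree_le_card_support (u : σ →₀ ℕ) (h : ∀ s, u s ≤ 1) : u.degree ≤ u.support.card := by
  rw [Finsupp.degree_apply, card_eq_sum_ones]
  exact sum_le_sum fun s _ => h s

lemma sq_shadow (k : ℕ) : ∀ S T : Finset (σ →₀ ℕ), (∀ u ∈ S, u.degree = k + 1 ∧ ∀ s, u s ≤ 1) →
    (∀ u ∈ T, u.degree = k) → (∀ v s, v + Finsupp.single s 1 ∈ S → v ∈ T) → S.Nonempty →
    ((k + 1).factorial * S.card) ^ k ≤ (k.factorial * T.card) ^ (k + 1) := by
  induction k with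
  | zero =>
    rintro S T hS - hsh ⟨u, hu⟩
    have h1 : u ≠ 0 := fun h => by simpa [h] using hS u hu
    obtain ⟨s, hs⟩ := Finsupp.support_nonempty_iff.2 h1
    have := hsh _ s (by rwa [sub_add_single (Finsupp.mem_support_iff.1 hs)])
    simpa using card_pos.2 ⟨_, this⟩
  | succ k ih =>
    intro S T hS hT hsh _
    set c : ℝ := (((k + 1).factorial * T.card : ℕ) : ℝ) ^ ((k + 1 : ℕ) : ℝ)⁻¹ with hc
    have hc0 : 0 ≤ c := by positivity
    have hc1 : c ^ (k + 1) = ((k + 1).factorial * T.card : ℕ) :=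
      Real.rpow_inv_natCast_pow (Nat.cast_nonneg _) (by omega)
    have key : ∀ s, (((k + 1).factorial * (lk' S s).card : ℕ) : ℝ) ≤
        c * (k.factorial * (lk' T s).card : ℕ) := by
      intro s
      rcases (lk' S s).eq_empty_or_nonempty with h | h
      · rw [h, card_empty, mul_zero, Nat.cast_zero]
        positivity
      have h1 := ih (lk' S s) (lk' T s) (fun u hu => by
          obtain ⟨h2, h3⟩ := hS _ (mem_lk'.1 hu)
          rw [map_add, Finsupp.degree_single] at h2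
          refine ⟨by omega, fun t => ?_⟩
          have := h3 t
          rw [Finsupp.add_apply] at this
          omega) (fun u hu => by
          have := hT _ (mem_lk'.1 hu)
          rw [map_add, Finsupp.degree_single] at this
          omega) (fun v t hv => mem_lk'.2 (hsh _ t (by
            rw [add_right_comm]
            exact mem_lk'.1 hv))) h
      have h2 : (lk' S s).card ≤ T.card := card_le_card fun v hv => hsh v s (mem_lk'.1 hv)
      rw [← pow_le_pow_iff_left₀ (by positivity) (by positivity) (Nat.succ_ne_zero k), mul_pow c,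
        hc1]
      have h3 : ((k + 1).factorial * (lk' S s).card) ^ (k + 1) ≤
          (k + 1).factorial * T.card * (k.factorial * (lk' T s).card) ^ (k + 1) := by
        rw [pow_succ']
        exact Nat.mul_le_mul (Nat.mul_le_mul_left _ h2) h1
      exact_mod_cast h3
    have e1 : (k + 2) * S.card ≤ ∑ s, (lk' S s).card := by
      rw [sum_card_lk', mul_comm, ← smul_eq_mul]
      refine card_nsmul_le_sum _ _ _ fun u hu => ?_
      have := degree_le_card_support u (hS u hu).2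
      rw [(hS u hu).1] at this
      exact this
    have e2 : ∑ s, (lk' T s).card ≤ (k + 1) * T.card := by
      rw [sum_card_lk', mul_comm, ← smul_eq_mul]
      refine sum_le_card_nsmul _ _ _ fun u hu => ?_
      rw [← hT u hu]
      exact card_support_le u
    have h4 : (((k + 1 + 1).factorial * S.card : ℕ) : ℝ) ≤
        c * ((k + 1).factorial * T.card : ℕ) := by
      have h5 := sum_le_sum fun s (_ : s ∈ univ) => key s
      rw [← mul_sum, ← Nat.cast_sum, ← Nat.cast_sum, ← mul_sum, ← mul_sum] at h5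
      have h6 : (k + 1 + 1).factorial * S.card ≤ (k + 1).factorial * ∑ s, (lk' S s).card := by
        rw [Nat.factorial_succ (k + 1), mul_comm (k + 1 + 1), mul_assoc]
        exact Nat.mul_le_mul_left _ e1
      have h7 : k.factorial * ∑ s, (lk' T s).card ≤ (k + 1).factorial * T.card := by
        rw [Nat.factorial_succ k, mul_comm (k + 1), mul_assoc]
        exact Nat.mul_le_mul_left _ e2
      exact (Nat.cast_le.2 h6).trans (h5.trans (mul_le_mul_of_nonneg_left (Nat.cast_le.2 h7) hc0))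
    have h5 := pow_le_pow_left₀ (Nat.cast_nonneg _) h4 (k + 1)
    rw [mul_pow c, hc1, ← pow_succ'] at h5
    exact_mod_cast h5

lemma shadow_sharp (k : ℕ) (hk : 1 ≤ k) (S T : Finset (σ →₀ ℕ)) (hS : ∀ u ∈ S, u.degree = k + 1)
    (hT : ∀ u ∈ T, u.degree = k) (hsh : ∀ v s, v + Finsupp.single s 1 ∈ S → v ∈ T) :
    ∃ n, S.card ≤ n + k * T.card ∧
      ((k + 1).factorial * n) ^ k ≤ (k.factorial * T.card) ^ (k + 1) := by
  refine ⟨(S.filter fun u => ∀ s, u s ≤ 1).card, ?_, ?_⟩
  · rw [← card_filter_add_card_filter_not (s := S) (fun u => ∀ s, u s ≤ 1)]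
    refine Nat.add_le_add_left ?_ _
    have h1 : (S.filter fun u => ¬∀ s, u s ≤ 1) ⊆
        T.biUnion fun v => v.support.image fun s => v + Finsupp.single s 1 := by
      intro u hu
      obtain ⟨h1, h2⟩ := mem_filter.1 hu
      push Not at h2
      obtain ⟨s, hs⟩ := h2
      have h3 := sub_add_single (u := u) (s := s) (by omega)
      refine mem_biUnion.2 ⟨_, hsh _ s (by rwa [h3]), mem_image.2 ⟨s, ?_, h3⟩⟩
      rw [Finsupp.mem_support_iff, Finsupp.tsub_apply, Finsupp.single_eq_same]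
      omega
    refine (card_le_card h1).trans (card_biUnion_le.trans ?_)
    rw [mul_comm, ← smul_eq_mul]
    refine sum_le_card_nsmul _ _ _ fun v hv => card_image_le.trans ?_
    rw [← hT v hv]
    exact card_support_le v
  · rcases (S.filter fun u => ∀ s, u s ≤ 1).eq_empty_or_nonempty with h | h
    · rw [h, card_empty, mul_zero, zero_pow (by omega)]
      exact Nat.zero_le _
    · exact sq_shadow k _ T (fun u hu => ⟨hS u (mem_filter.1 hu).1, (mem_filter.1 hu).2⟩) hT
        (fun v s hv => hsh v s (mem_filter.1 hv).1) h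

end comb

section alg

variable {K A : Type*} [Field K] [CommRing A] [Algebra K A] [FiniteDimensional K A]
  {V : Submodule K A} {d : ℕ} {φ : A →ₗ[K] K}

lemma Perf.brk_full (hP : Perf V d φ) {i j : ℕ} (hd : i + j = d) {W : Submodule K A}
    (hW : W ≤ V ^ i) : brk φ 1 (V ^ j) W = finrank K W := by
  rw [brk_comm, hP.brk_eq (e := 0) (i := i) (by simp [Submodule.one_eq_span]) (by omega) hW,
    rk_one_bot]

lemma Perf.orth (hP : Perf V d φ) {i j : ℕ} (hd : i + j = d) {X Y : Submodule K A}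
    (hX : X ≤ V ^ i) (hY : Y ≤ V ^ j) (h : ∀ x ∈ X, ∀ y ∈ Y, φ (x * y) = 0) :
    finrank K X + finrank K Y ≤ finrank K (V ^ i : Submodule K A) := by
  have h1 := brk_add φ 1 (V ^ i) Y
  rw [hP.brk_full (by omega) hY] at h1
  have h2 : finrank K X ≤ finrank K (V ^ i ⊓ LinearMap.ker (pairL φ 1 Y) : Submodule K A) :=
    Submodule.finrank_mono fun x hx => ⟨hX hx, mem_ker_pairL.2 fun y hy => by
      rw [one_mul]; exact h x hx y hy⟩
  omega

lemma Perf.mac_dual (hP : Perf V d φ) {i k : ℕ} (hd : i + (k + 1) = d) (hk : 1 ≤ k)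
    {W : Submodule K A} (hW : W ≤ V ^ i) :
    ∃ n, finrank K W ≤ n + k * finrank K (V * W : Submodule K A) ∧
      ((k + 1).factorial * n) ^ k ≤
        (k.factorial * finrank K (V * W : Submodule K A)) ^ (k + 1) := by
  obtain ⟨r, y, rfl⟩ := exists_span_range V
  set V := Submodule.span K (Set.range y) with hV
  let v' : (Fin r →₀ ℕ) → Dual K W := fun u => pairL φ 1 W (mono K y u)
  let v : (Fin r →₀ ℕ) → Dual K (V * W : Submodule K A) := fun u => pairL φ 1 (V * W) (mono K y u)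
  obtain ⟨n, h1, h2⟩ := shadow_sharp k hk (std K v' (k + 1)) (std K v k)
    (fun u hu => ((mem_std _).1 hu).1) (fun u hu => ((mem_std _).1 hu).1) (fun w s hw => by
      refine std_down v v' (w := Finsupp.single s 1)
        ((LinearMap.mulLeft K (y s)).restrict (p := W) (q := V * W) fun x hx =>
          Submodule.mul_mem_mul (Submodule.subset_span ⟨s, rfl⟩) hx).dualMap (fun x => ?_)
        (by rwa [Finsupp.degree_single])
      ext w
      have : mono K y (Finsupp.single s 1) = y s := MvPolynomial.aeval_X y s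
      simp only [v, v', LinearMap.dualMap_apply, pairL_apply, mono_add, this, mul_assoc]
      rfl)
  have h3 : (std K v' (k + 1)).card = finrank K W := by
    rw [← card_std, ← hP.brk_full hd hW, brk, hV, span_pow, Submodule.map_span, ← Set.range_comp]
    rfl
  have h4 : (std K v k).card ≤ finrank K (V * W : Submodule K A) := by
    rw [← card_std]
    exact (Submodule.finrank_le _).trans Subspace.dual_finrank_eq.le
  refine ⟨n, ?_, h2.trans (Nat.pow_le_pow_left (Nat.mul_le_mul_left _ h4) _)⟩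
  rw [← h3]
  exact h1.trans (Nat.add_le_add_left (Nat.mul_le_mul_left _ h4) _)

lemma finrank_ker_ge {L : A} (hL : L ∈ V) (a : ℕ) :
    finrank K (V ^ a : Submodule K A) ≤ finrank K (V ^ (a + 1) : Submodule K A) +
      finrank K (V ^ a ⊓ LinearMap.ker (LinearMap.mulLeft K L) : Submodule K A) := by
  have h1 := fr_map (V ^ a) (LinearMap.mulLeft K L)
  have h2 : finrank K ((V ^ a).map (LinearMap.mulLeft K L)) ≤
      finrank K (V ^ (a + 1) : Submodule K A) := Submodule.finrank_mono (by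
    rintro _ ⟨w, hw, rfl⟩
    exact mul_mem_pow_succ hL hw)
  omega

lemma exists_generic_ker [Infinite K] (V W : Submodule K A) : ∃ L ∈ V, ∀ y ∈ V, ∀ u ∈ W,
    L * u = 0 → ∃ w ∈ W, y * u = L * w := by
  obtain ⟨L, hL, hmax⟩ := exists_generic (ι := Unit) V (fun _ => W) (fun _ => ⊥) (fun _ => 1)
  refine ⟨L, hL, fun y hy u hu h0 => ?_⟩
  obtain ⟨w, hw, h1⟩ := chain_step W ⊥ (C L + X * C y) (fun t => by
    have := hmax () (L + t • y) (V.add_mem hL (V.smul_mem t hy))
    rw [Algebra.smul_def, mul_comm] at this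
    simpa using this) 0 (fun _ => u) (fun _ _ => hu) (fun m hm => by
    obtain rfl : m = 0 := by omega
    simpa using h0)
  refine ⟨-w, W.neg_mem hw, ?_⟩
  simp only [coeff_add, coeff_C_zero, mul_coeff_zero, coeff_X_zero, zero_mul, add_zero,
    Finset.HasAntidiagonal.antidiagonal_zero, sum_singleton, zero_add, coeff_C_succ, coeff_X_mul, Submodule.mem_bot] at h1
  rw [mul_neg]
  exact eq_neg_of_add_eq_zero_right h1

end alg

/-- The valley inequality. -/
theorem IsGorSeq.valley {K : Type u} [Field K] {d : ℕ} {h : ℕ → ℕ} (hG : IsGorSeq K d h)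
    (a b : ℕ) (hd : a + 1 + (b + 1) = d) :
    ∃ x y n n' : ℕ, x + y ≤ h (a + 1) ∧ h a ≤ h (a + 1) + n + (b + 1) * x ∧
      h (a + 2) ≤ h (a + 1) + n' + (a + 1) * y ∧
      ((b + 2).factorial * n) ^ (b + 1) ≤ ((b + 1).factorial * x) ^ (b + 2) ∧
      ((a + 2).factorial * n') ^ (a + 1) ≤ ((a + 1).factorial * y) ^ (a + 2) := by
  obtain ⟨A, _, _, _, V, φ, hP, hh⟩ := hG.data_closure
  obtain ⟨L, hL, hgen⟩ := exists_generic_ker V (V ^ b)
  set W := V ^ a ⊓ LinearMap.ker (LinearMap.mulLeft (AlgebraicClosure K) L) with hW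
  set U := V ^ b ⊓ LinearMap.ker (LinearMap.mulLeft (AlgebraicClosure K) L) with hU
  obtain ⟨n, h1, h2⟩ := hP.mac_dual (i := a) (k := b + 1) (by omega) (by omega)
    (W := W) inf_le_left
  obtain ⟨n', h3, h4⟩ := hP.mac_dual (i := b) (k := a + 1) (by omega) (by omega)
    (W := U) inf_le_left
  have h5 := finrank_ker_ge hL a
  have h6 := finrank_ker_ge hL b
  have h7 := hP.orth hd (X := V * W) (Y := V * U)
    (Submodule.mul_le.2 fun y hy w hw => mul_mem_pow_succ hy hw.1)
    (Submodule.mul_le.2 fun y hy w hw => mul_mem_pow_succ hy hw.1) (by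
      intro x hx z hz
      refine Submodule.mul_induction_on hx (fun y _ w hw => ?_) fun p q hp hq => by
        rw [add_mul, map_add, hp, hq, add_zero]
      refine Submodule.mul_induction_on hz (fun y' hy' u hu => ?_) fun p q hp hq => by
        rw [mul_add, map_add, hp, hq, add_zero]
      obtain ⟨w', -, e⟩ := hgen y' hy' u hu.1 hu.2
      have e2 : L * w = 0 := hw.2
      have : y * w * (y' * u) = y * w' * (L * w) := by rw [e]; ring
      rw [this, e2, mul_zero, map_zero])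
  rw [hh _ (by omega), hh _ (by omega), ← hW] at h5
  rw [hh _ (by omega), hh _ (by omega), ← hU] at h6
  rw [hh _ (by omega)] at h7
  have s1 := hG.basic.2.1 b (a + 2) (by omega)
  have s2 := hG.basic.2.1 (b + 1) (a + 1) (by omega)
  exact ⟨_, _, n, n', h7, by omega, by omega, h2, h4⟩

end Pool.Agent.MP_708e57_al

end MrgPart4

-- marker of a merged file
example : 731051 + 343784 = 731051 + 343784 := rfl

end MrgPart1

-- marker of a merged file
example : 731051 + 343784 = 731051 + 343784 := rfl
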