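import Pool.Agent.MP_708e57_al.cf.Valley
import Pool.Agent.MP_708e57_al.cf.Suff

/-!
The asymptotically sharp description of Gorenstein sequences.
-/

namespace Pool.Agent.MP_708e57_al

open Finset

universe u

lemma one_add_pow_le {x : ℝ} (h0 : 0 ≤ x) (h1 : x ≤ 1) (n : ℕ) : (1 + x) ^ n ≤ 1 + 3 ^ n * x := by
  induction n with
  | zero => simpa using h0
  | succ n ih =>
    have h2 : (1 : ℝ) ≤ 3 ^ n := one_le_pow₀ (by norm_num)
    have h3 := mul_le_mul_of_nonneg_right ih (by linarith : 0 ≤ 1 + x)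
    have h4 : 3 ^ n * x * x ≤ 3 ^ n * x := mul_le_of_le_one_right (by positivity) h1
    rw [pow_succ, pow_succ]
    nlinarith

lemma nu_anti {d : ℕ} {h : ℕ → ℕ} (H : ∀ i, 1 ≤ i → i < d → alpha i (h (i + 1)) ≤ h i) {k : ℕ}
    (hk : 1 ≤ k) : ∀ l, k ≤ l → l ≤ d → nu l (h l) ≤ nu k (h k) := by
  intro l hl
  induction l, hl using Nat.le_induction with
  | base => exact fun _ => le_rfl
  | succ l hl ih =>
    intro hd
    refine le_trans (le_nu (by omega) (Nat.cast_nonneg _) ?_) (ih (by omega))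
    have := H l (by omega) (by omega)
    rwa [alpha_eq l (Nat.cast_nonneg _), div_le_iff₀' (by positivity)] at this

lemma max_pow_div {k : ℕ} (hk : k ≠ 0) {x y c : ℝ} (hx : 0 ≤ x) (h1 : x ≤ c)
    (h2 : y ^ k / k.factorial ≤ c) : max (nu k x) y ^ k / k.factorial ≤ c := by
  rcases max_cases (nu k x) y with ⟨h, -⟩ | ⟨h, -⟩ <;> rw [h]
  · rwa [nu_pow_div hk hx]
  · exact h2

lemma room_step {d k C : ℕ} (hk : 1 ≤ k) (hd : k + 1 ≤ d) {x y r s : ℕ} {δ δ' δm lam : ℝ}
    (h0 : 0 < δm) (h1 : δm ≤ δ) (h1' : δm ≤ δ') (h2 : δ ≤ lam) (h3 : lam ≤ 1)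
    (h4 : C * 5 ^ d * (d.factorial : ℝ) ^ d * lam ≤ 1) (h5 : x < y → δ' ≤ δ ^ 4)
    (h6 : C ≤ δm ^ d * x) (h7 : nu (k + 1) y ≤ nu k x) (hr : δ * x ≤ r) (hs : s ≤ y)
    (hs' : (s : ℝ) ≤ 4 * δ' * y + δm * x) : C * s ^ k ≤ r ^ (k + 1) := by
  have hδ : 0 < δ := by linarith
  have hx0 : (0 : ℝ) ≤ x := Nat.cast_nonneg x
  have hy0 : (0 : ℝ) ≤ y := Nat.cast_nonneg y
  have hs0 : (0 : ℝ) ≤ s := Nat.cast_nonneg s
  suffices hh : (C : ℝ) * s ^ k ≤ (δ * x) ^ (k + 1) by
    exact_mod_cast hh.trans (pow_le_pow_left₀ (by positivity) hr _)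
  rcases Nat.lt_or_ge x y with hc | hc
  · have hc' : (x : ℝ) ≤ y := by exact_mod_cast hc.le
    have e1 : (s : ℝ) ≤ 5 * δ ^ 4 * y := by
      have := h5 hc
      have := mul_le_mul h1' hc' hx0 (by linarith)
      nlinarith
    have e2 : (y : ℝ) ^ k ≤ (d.factorial : ℝ) ^ d * x ^ (k + 1) := by
      have e3 : (y : ℝ) ≤ nu k x ^ (k + 1) :=
        (le_mul_of_one_le_left hy0 (one_le_fact (k + 1))).trans (by
          rw [← nu_pow (Nat.succ_ne_zero k) hy0]
          exact pow_le_pow_left₀ (nu_nonneg _ hy0) h7 _)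
      refine (pow_le_pow_left₀ hy0 e3 k).trans ?_
      rw [← pow_mul, mul_comm (k + 1), pow_mul, nu_pow (by omega) hx0, mul_pow]
      refine mul_le_mul_of_nonneg_right ?_ (by positivity)
      exact (pow_le_pow_left₀ (by positivity) (fact_le (by omega)) _).trans
        (pow_le_pow_right₀ (one_le_fact d) hd)
    have e4 : (δ ^ 4) ^ k ≤ lam * δ ^ (k + 1) := by
      rw [← pow_mul]
      refine (pow_le_pow_of_le_one hδ.le (by linarith) (by omega : k + 1 + 1 ≤ 4 * k)).trans ?_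
      rw [pow_succ']
      gcongr
    have e5 : (5 : ℝ) ^ k ≤ 5 ^ d := pow_le_pow_right₀ (by norm_num) (by omega)
    have hl : 0 ≤ lam := by linarith
    calc (C : ℝ) * s ^ k ≤ C * (5 * δ ^ 4 * y) ^ k := by gcongr
      _ = C * (5 ^ k * (δ ^ 4) ^ k * y ^ k) := by rw [mul_pow, mul_pow]
      _ ≤ C * (5 ^ d * (lam * δ ^ (k + 1)) * ((d.factorial : ℝ) ^ d * x ^ (k + 1))) := by gcongr
      _ = (C * 5 ^ d * (d.factorial : ℝ) ^ d * lam) * (δ * x) ^ (k + 1) := by ring
      _ ≤ _ := mul_le_of_le_one_left (by positivity) h4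
  · have hc' : (s : ℝ) ≤ x := by exact_mod_cast hs.trans hc
    have e1 : δm ^ d ≤ δ ^ (k + 1) :=
      (pow_le_pow_of_le_one h0.le (by linarith) hd).trans (pow_le_pow_left₀ h0.le h1 _)
    calc (C : ℝ) * s ^ k ≤ (δ ^ (k + 1) * x) * x ^ k := by
          gcongr
          exact h6.trans (by gcongr)
      _ = _ := by ring

theorem rz_sharp (d : ℕ) (hd : 3 ≤ d) (ε : ℝ) (hε : 0 < ε) (hε' : ε ≤ 1) :
    ∃ N : ℕ, ∀ (K : Type u) [Field K] (h : ℕ → ℕ), (∀ i j, i + j = d → h i = h j) → N ≤ h 1 →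
      (∀ i, 1 ≤ i → i < d → alpha i (h (i + 1)) + alpha (d - i) (h (i - 1)) ≤ (1 - ε) * h i) →
      Rz K d h := by
  obtain ⟨C, hC⟩ := rz_of_room.{u} d hd
  have hf := one_le_fact d
  obtain ⟨lam, hl0, hl1, hl2⟩ : ∃ lam : ℝ, 0 < lam ∧ 6 * lam ≤ ε ∧
      C * 5 ^ d * (d.factorial : ℝ) ^ d * lam ≤ 1 := by
    refine ⟨min (ε / 6) (C * 5 ^ d * (d.factorial : ℝ) ^ d + 1)⁻¹, by positivity,
      by linarith [min_le_left (ε / 6) (C * 5 ^ d * (d.factorial : ℝ) ^ d + 1)⁻¹], ?_⟩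
    refine (mul_le_mul_of_nonneg_left (min_le_right _ _) (by positivity)).trans ?_
    rw [← div_eq_mul_inv]
    exact div_le_one_of_le₀ (by linarith) (by positivity)
  have hl3 : lam ≤ 1 := by linarith
  obtain ⟨δm, hδm⟩ : ∃ δm : ℝ, δm = lam ^ 4 ^ (d + 1) := ⟨_, rfl⟩
  have hm0 : 0 < δm := by rw [hδm]; positivity
  have hm1 : δm ≤ 1 := by rw [hδm]; exact pow_le_one₀ hl0.le hl3
  obtain ⟨η, hη0, hη1, hη2, hη3⟩ : ∃ η : ℝ, 0 < η ∧ η ≤ δm ∧ (1 + 2 * η) ^ d ≤ 1 + δm ∧
      2 * (η * d.factorial) ≤ δm := by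
    have h3 : (1 : ℝ) ≤ 3 ^ d := one_le_pow₀ (by norm_num)
    obtain ⟨η, hη0, hη⟩ : ∃ η : ℝ, 0 < η ∧ η * (2 * 3 ^ d * d.factorial) = δm :=
      ⟨δm / (2 * 3 ^ d * d.factorial), by positivity, div_mul_cancel₀ _ (by positivity)⟩
    have h4 : 3 ^ d * (2 * η) ≤ δm := by
      rw [← hη]
      nlinarith [mul_le_mul_of_nonneg_left hf (by positivity : 0 ≤ 3 ^ d * (2 * η))]
    have h5 : 2 * η ≤ δm := le_trans (le_mul_of_one_le_left (by positivity) h3) h4
    refine ⟨η, hη0, by linarith, (one_add_pow_le (by positivity) (by linarith) d).trans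
      (by linarith), ?_⟩
    rw [← hη]
    nlinarith [mul_le_mul_of_nonneg_left h3 (by positivity : 0 ≤ 2 * (η * d.factorial))]
  obtain ⟨x0, hx0, happ⟩ := approx.{u} d (by omega) η hη0 (by linarith)
  obtain ⟨N0, hN0⟩ := exists_nat_ge (2 * x0 / ε + 6 * (3 * d / η) ^ d / δm +
    ((d + 1) / (δm / 2)) ^ (d + 1) + C / δm ^ d + 1)
  refine ⟨(d.factorial * N0 + 1) ^ d, fun K _ h hs hN H => ?_⟩
  have hh0 : ∀ k, (0 : ℝ) ≤ h k := fun k => Nat.cast_nonneg _
  have ha0 : ∀ k l, 0 ≤ alpha k (h l) := fun k l => alpha_nonneg k (hh0 l)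
  have hz := fun k hk => nu_anti (d := d) (h := h) (fun i h1 h2 => by
    have := H i h1 h2
    have := ha0 (d - i) (i - 1)
    have := mul_nonneg hε.le (hh0 i)
    linarith) (k := k) hk
  have hz0 : ∀ k, 0 ≤ nu k (h k) := fun k => nu_nonneg k (hh0 k)
  have hbig : ∀ k, 1 ≤ k → k < d → (N0 : ℝ) ≤ h k := by
    intro k h1 h2
    have e0 : (1 : ℝ) ≤ d.factorial * N0 + 1 := le_add_of_nonneg_left (by positivity)
    have e1 := le_nu_of_pow (k := d - 1) (d := d) (x := h (d - 1)) (by omega) (by omega) e0 (by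
      rw [hs (d - 1) 1 (by omega)]
      exact_mod_cast hN)
    have e2 := e1.trans (hz k h1 (d - 1) (by omega) (by omega))
    have e3 := e2.trans (le_self_pow₀ (e0.trans e2) (by omega : k ≠ 0))
    rw [nu_pow (by omega) (hh0 k)] at e3
    have e4 := mul_le_mul_of_nonneg_right (fact_le h2.le) (hh0 k)
    exact le_of_mul_le_mul_left (by linarith) (by positivity : (0 : ℝ) < d.factorial)
  have hb : ∀ k, 1 ≤ k → k < d → 2 * x0 ≤ ε * h k ∧ 6 * (3 * d / η) ^ d ≤ δm * h k ∧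
      ((d + 1) / (δm / 2)) ^ (d + 1) ≤ (h k : ℝ) ∧ C ≤ δm ^ d * h k ∧ (1 : ℝ) ≤ h k := by
    intro k h1 h2
    have e := hN0.trans (hbig k h1 h2)
    have p1 : 0 ≤ 2 * x0 / ε := by positivity
    have p2 : 0 ≤ 6 * (3 * d / η) ^ d / δm := by positivity
    have p3 : 0 ≤ (((d : ℝ) + 1) / (δm / 2)) ^ (d + 1) := by positivity
    have p4 : 0 ≤ C / δm ^ d := by positivity
    refine ⟨(div_le_iff₀' hε).1 (by linarith), (div_le_iff₀' hm0).1 (by linarith), by linarith,
      (div_le_iff₀' (by positivity)).1 (by linarith), by linarith⟩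
  obtain ⟨δ, hδ1, hδ2, hδ3⟩ : ∃ δ : ℕ → ℝ, (∀ x, δm ≤ δ x) ∧ (∀ x, δ x ≤ lam) ∧
      ∀ k y, k ≤ d → h k < y → δ y ≤ δ (h k) ^ 4 := by
    refine ⟨fun x => lam ^ 4 ^ ((range (d + 1)).filter fun i => h i < x).card, fun x => ?_,
      fun x => pow_le_of_le_one hl0.le hl3 (by positivity), fun k y h1 h2 => ?_⟩
    · rw [hδm]
      exact pow_le_pow_of_le_one hl0.le hl3 (Nat.pow_le_pow_right (by omega)
        ((card_filter_le _ _).trans (card_range _).le))
    · rw [← pow_mul, ← pow_succ]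
      refine pow_le_pow_of_le_one hl0.le hl3 (Nat.pow_le_pow_right (by omega) (card_lt_card ?_))
      refine ⟨fun i hi => mem_filter.2 ⟨(mem_filter.1 hi).1, (mem_filter.1 hi).2.trans h2⟩,
        fun hc => ?_⟩
      have := (mem_filter.1 (hc (mem_filter.2 ⟨mem_range.2 (by omega : k < d + 1), h2⟩))).2
      omega
  obtain ⟨a, ha⟩ : ∃ a : ℕ → ℝ, ∀ j, a j = alpha j (h (j + 1)) := ⟨_, fun _ => rfl⟩
  obtain ⟨b, hb'⟩ : ∃ b : ℕ → ℝ, ∀ j, b j = alpha (d - j) (h (j - 1)) := ⟨_, fun _ => rfl⟩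
  have hae : ∀ j, nu (j + 1) (h (j + 1)) ^ j / j.factorial = a j := fun j => by
    rw [ha, alpha_eq j (hh0 _)]
  have hbe : ∀ j, 1 ≤ j → j ≤ d →
      nu (d - j + 1) (h (d - j + 1)) ^ (d - j) / (d - j).factorial = b j := fun j h1 h2 => by
    rw [hb', alpha_eq _ (hh0 _), hs (d - j + 1) (j - 1) (by omega)]
  have ha' : ∀ j, 0 ≤ a j := fun j => ha j ▸ ha0 _ _
  have hb'' : ∀ j, 0 ≤ b j := fun j => hb' j ▸ ha0 _ _
  obtain ⟨c, hc⟩ : ∃ c : ℕ → ℝ, ∀ j, c j = if 2 * j = d then a j + b j else min (a j) (b j) :=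
    ⟨_, fun _ => rfl⟩
  have hc1 : ∀ j, 0 ≤ c j ∧ c j ≤ a j + b j := fun j => by
    have := ha' j
    have := hb'' j
    have := min_le_left (a j) (b j)
    rw [hc]
    split_ifs
    · exact ⟨by positivity, le_rfl⟩
    · exact ⟨by positivity, by linarith⟩
  have hab : ∀ j, 1 ≤ j → j < d → a j + b j + ε / 2 * h j ≤ (1 - 3 * δ (h j)) * h j := by
    intro j h1 h2
    have e1 := H j h1 h2
    have e2 := mul_le_mul_of_nonneg_right ((hδ2 (h j))) (hh0 j)
    have e3 := mul_le_mul_of_nonneg_right hl1 (hh0 j)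
    rw [← ha, ← hb'] at e1
    linarith
  obtain ⟨t, ht⟩ : ∃ t : ℕ → ℝ, ∀ j, t j = (1 - 3 * δ (h j)) * h j - c j := ⟨_, fun _ => rfl⟩
  have ht1 : ∀ j, 1 ≤ j → j < d → x0 ≤ t j ∧ t j ≤ h j := by
    intro j h1 h2
    have := hab j h1 h2
    have := hc1 j
    have := (hb j h1 h2).1
    have := mul_nonneg (hm0.le.trans (hδ1 (h j))) (hh0 j)
    rw [ht]
    constructor <;> linarith
  have ht0 : ∀ j, 1 ≤ j → j < d → 0 ≤ t j := fun j h1 h2 => hx0.trans (ht1 j h1 h2).1
  obtain ⟨g, hg, hg1, hg2⟩ := happ K t fun j h1 h2 => (ht1 j h1 (by omega)).1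
  have hup : ∀ j, 1 ≤ j → 2 * j ≤ d → (g j : ℝ) ≤ (1 - δ (h j)) * h j := by
    intro j h1 h2
    have f1 : ∀ i, j < i → 2 * i ≤ d → nu i (t i) ≤ nu (j + 1) (h (j + 1)) := fun i c1 c2 =>
      (nu_mono i (ht0 i (by omega) (by omega)) (ht1 i (by omega) (by omega)).2).trans
        (hz (j + 1) (by omega) i c1 (by omega))
    have f2 : ∀ i, 1 ≤ i → i < j → nu (d - i) (t i) ≤ nu (d - j + 1) (h (d - j + 1)) :=
      fun i c1 c2 => (nu_mono (d - i) (ht0 i c1 (by omega)) ((ht1 i c1 (by omega)).2.trans_eq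
        (by rw [hs i (d - i) (by omega)]))).trans
        (hz (d - j + 1) (by omega) (d - i) (by omega) (by omega))
    have f3 : ∀ i, 1 ≤ i → 2 * i < d → ∀ q : ℝ, 0 ≤ q → q ^ (i * (d - i)) ≤ t i →
        q ^ ecut d i j ≤ d.factorial * h j := by
      intro i c1 c2 q hq c3
      have c4 := c3.trans (ht1 i c1 (by omega)).2
      unfold ecut
      split_ifs with c5
      · have c6 := (le_nu (k := i) (w := q ^ (d - i)) (by omega) (hh0 i) (by
          rw [← pow_mul, mul_comm (d - i)]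
          exact c4.trans (le_mul_of_one_le_left (hh0 i) (one_le_fact i)))).trans
          (hz j h1 i c5 (by omega))
        rw [mul_comm j, pow_mul]
        refine (pow_le_pow_left₀ (by positivity) c6 j).trans ?_
        rw [nu_pow (by omega) (hh0 j)]
        exact mul_le_mul_of_nonneg_right (fact_le (by omega)) (hh0 j)
      · have c6 := (le_nu (k := d - i) (w := q ^ i) (by omega) (hh0 (d - i)) (by
          rw [← pow_mul, ← hs i (d - i) (by omega)]
          exact c4.trans (le_mul_of_one_le_left (hh0 i) (one_le_fact _)))).trans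
          (hz (d - j) (by omega) (d - i) (by omega) (by omega))
        rw [pow_mul]
        refine (pow_le_pow_left₀ (by positivity) c6 (d - j)).trans ?_
        rw [nu_pow (by omega) (hh0 _), ← hs j (d - j) (by omega)]
        exact mul_le_mul_of_nonneg_right (fact_le (by omega)) (hh0 j)
    have key : ∃ S : ℝ, 0 ≤ S ∧ S ≤ (1 - 3 * δ (h j)) * h j ∧
        (g j : ℝ) ≤ (1 + 2 * η) ^ d * S + 3 * (3 * d / η) ^ d + η * (d.factorial * h j) := by
      have e1 := hab j h1 (by omega)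
      have e2 := ht j
      have e3 := ht0 j h1 (by omega)
      have e4 : 0 ≤ ε / 2 * h j := by positivity
      have e5 := hz0 (j + 1)
      have e6 := hz0 (d - j + 1)
      rw [hc] at e2
      rcases h2.eq_or_lt with h3 | h3
      · have e7 := nu_nonneg j e3
        refine ⟨_, by positivity, ?_, hg2 j _ _ _ _ h1 h2 e7 e6 e6 (by positivity)
          (fun i c1 c2 => by omega) f2 (Or.inl le_rfl) (fun _ => f2) f3⟩
        have e8 := hbe j h1 (by omega)
        have e9 := hae j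
        rw [show d - j = j by omega] at e8 ⊢
        rw [if_pos h3] at e2
        rw [nu_pow_div (by omega) e3]
        linarith
      rw [if_neg h3.ne] at e2
      rcases le_total (a j) (b j) with h4 | h4
      · have e7 : 0 ≤ max (nu (d - j) (t j)) (nu (d - j + 1) (h (d - j + 1))) := le_max_of_le_right e6
        refine ⟨_, by positivity, ?_, hg2 j _ 0 _ _ h1 h2 e5 le_rfl e7 (by positivity) f1
          (fun i c1 c2 => le_max_of_le_right (f2 i c1 c2)) (Or.inr ⟨h3, le_max_left _ _⟩)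
          (fun _ => by omega) f3⟩
        rw [min_eq_left h4] at e2
        have := max_pow_div (k := d - j) (y := nu (d - j + 1) (h (d - j + 1)))
          (c := (1 - 3 * δ (h j)) * h j - a j) (by omega) e3 e2.le
          (by rw [hbe j h1 (by omega)]; linarith)
        rw [hae, zero_pow (by omega), zero_div]
        linarith
      · have e7 : 0 ≤ max (nu j (t j)) (nu (j + 1) (h (j + 1))) := le_max_of_le_right e5
        refine ⟨_, by positivity, ?_, hg2 j _ 0 _ _ h1 h2 e7 le_rfl e6 (by positivity)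
          (fun i c1 c2 => le_max_of_le_right (f1 i c1 c2)) f2 (Or.inl (le_max_left _ _))
          (fun _ => by omega) f3⟩
        rw [min_eq_right h4] at e2
        have := max_pow_div (k := j) (y := nu (j + 1) (h (j + 1)))
          (c := (1 - 3 * δ (h j)) * h j - b j) (by omega) e3 e2.le (by rw [hae]; linarith)
        rw [hbe j h1 (by omega), zero_pow (by omega), zero_div]
        linarith
    obtain ⟨S, s1, s2, s3⟩ := key
    have s4 := mul_le_mul (hη2.trans (add_le_add_right (hδ1 (h j)) 1)) s2 s1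
      (by linarith [hδ1 (h j)])
    have s5 := (hb j h1 (by omega)).2.1
    have s6 := mul_le_mul_of_nonneg_right hη3 (hh0 j)
    have s7 := mul_le_mul_of_nonneg_right (hδ1 (h j)) (hh0 j)
    have s8 := mul_nonneg (mul_self_nonneg (δ (h j))) (hh0 j)
    nlinarith
  have hrho : ∀ k, 1 ≤ k → k < d → g (min k (d - k)) ≤ h k ∧
      δ (h k) * h k ≤ (h k - g (min k (d - k)) : ℕ) ∧
      ((h k - g (min k (d - k)) : ℕ) : ℝ) ≤ 4 * δ (h k) * h k + 2 * b k := by
    intro k h1 h2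
    obtain ⟨l, hl, e1, e2, e3, e4⟩ : ∃ l, min k (d - k) = l ∧ 1 ≤ l ∧ 2 * l ≤ d ∧ h l = h k ∧
        c l ≤ 2 * b k := by
      refine ⟨_, rfl, by omega, by omega, ?_, ?_⟩
      · rcases min_cases k (d - k) with ⟨e, -⟩ | ⟨e, -⟩ <;> rw [e]
        exact hs _ _ (by omega)
      · have e5 : a (d - k) = b k := by rw [ha, hb', hs (d - k + 1) (k - 1) (by omega)]
        have := hb'' k
        rw [hc]
        split_ifs with e6
        · have e7 : d - k = k := by omega
          rw [e7] at e5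
          rw [e7, min_self, e5]
          linarith
        · rcases min_cases k (d - k) with ⟨e, -⟩ | ⟨e, -⟩ <;> rw [e]
          · linarith [min_le_right (a k) (b k)]
          · linarith [min_le_left (a (d - k)) (b (d - k))]
    rw [hl]
    have s1 := hup l e1 e2
    have s2 := hg1 l e1 e2
    have s3 := ht l
    have s4 := (ht1 l e1 (by omega)).2
    rw [e3] at s1 s3 s4
    have s5 := mul_nonneg (hm0.le.trans (hδ1 (h k))) (hh0 k)
    have s6 : g l ≤ h k := by exact_mod_cast (by linarith : (g l : ℝ) ≤ h k)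
    have s7 := mul_le_mul (hη1.trans (hδ1 (h k))) s4 (ht0 l e1 (by omega))
      (hm0.le.trans (hδ1 (h k)))
    rw [Nat.cast_sub s6]
    exact ⟨s6, by linarith, by linarith⟩
  have hR := hC K (fun k => h k - g (min k (d - k))) (fun i j hij => by
      rw [hs i j hij, show d - i = j by omega, show d - j = i by omega, min_comm]) (by
      have s1 := (hrho 1 le_rfl (by omega)).2.1
      have s2 := mul_pos (hm0.trans_le (hδ1 (h 1)))
        (one_pos.trans_le (hb 1 le_rfl (by omega)).2.2.2.2)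
      exact_mod_cast s2.trans_le s1) (fun k h1 h2 => by
      obtain ⟨-, -, s1, s2, -⟩ := hb k h1 (by omega)
      have s3 := alpha_small (k := d - (k + 1)) (by omega) (by positivity) (by linarith) s1
      have s4 := (hrho (k + 1) (by omega) (by omega)).2.2
      rw [hb', Nat.add_sub_cancel] at s4
      exact room_step h1 (by omega) hm0 (hδ1 (h k)) (hδ1 (h (k + 1))) (hδ2 _) hl3 hl2
        (hδ3 k _ (by omega)) s2 (hz k h1 (k + 1) (by omega) (by omega))
        (hrho k h1 (by omega)).2.1 (Nat.sub_le _ _) (by linarith))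
  refine (hg.add hR).congr fun j h1 h2 => ?_
  have := (hrho j h1 (by omega)).1
  rw [min_eq_left (by omega)] at this
  simp only [Pi.add_apply]
  rw [min_eq_left (by omega)]
  omega

theorem sharp_suff (d : ℕ) (ε : ℝ) (hε : 0 < ε) :
    ∃ N : ℕ, ∀ (K : Type u) [Field K] (h : ℕ → ℕ), h 0 = 1 → (∀ i j, i + j = d → h i = h j) →
      (∀ i, d < i → h i = 0) → N ≤ h 1 →
      (∀ i, 1 ≤ i → i < d → (1 + ε) * (alpha i (h (i + 1)) + alpha (d - i) (h (i - 1))) ≤ h i) →
      IsGorSeq K d h := by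
  by_cases hd : 3 ≤ d
  · obtain ⟨N, hN⟩ := rz_sharp.{u} d hd (ε / (1 + ε)) (by positivity)
      (div_le_one_of_le₀ (by linarith) (by positivity))
    refine ⟨N + 1, fun K _ h h0 hs hz h1 H => (hN K h hs (by omega) fun i c1 c2 => ?_).isGorSeq
      (by omega) h0 hs (by omega) hz⟩
    have e : 1 - ε / (1 + ε) = (1 + ε)⁻¹ := by field_simp; ring
    rw [e, le_inv_mul_iff₀ (by positivity)]
    exact H i c1 c2
  refine ⟨2, fun K _ h h0 hs hz h1 _ => ?_⟩
  have hd2 : d = 2 := by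
    by_contra hc
    rcases Nat.eq_zero_or_pos d with h2 | h2
    · have := hz 1 (by omega)
      omega
    · have := hs 0 1 (by omega)
      omega
  refine Rz.isGorSeq ?_ (by omega) h0 hs (by omega) hz
  refine ((Rz.monomial (K := K) 0 (by omega)).nsmul (h 1)).congr fun j h1 h2 => ?_
  obtain rfl : j = 1 := by omega
  simp

theorem sharp_nec (d : ℕ) (ε : ℝ) (hε : 0 < ε) :
    ∃ N : ℕ, ∀ (K : Type u) [Field K] (h : ℕ → ℕ), IsGorSeq K d h → N ≤ h 1 →
      ∀ i, 1 ≤ i → i < d → (1 - ε) * (alpha i (h (i + 1)) + alpha (d - i) (h (i - 1))) ≤ h i := by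
  obtain ⟨e, e0, e1, e2⟩ : ∃ e : ℝ, 0 < e ∧ 3 * e ≤ 1 ∧ 3 * e ≤ ε :=
    ⟨min 1 ε / 3, by positivity, by linarith [min_le_left 1 ε], by linarith [min_le_right 1 ε]⟩
  obtain ⟨N, hN⟩ := exists_nat_ge ((((d : ℝ) + 1) / (e ^ 2 / (d + 1))) ^ (d + 1))
  refine ⟨(N + 1) ^ d, fun K _ h hG h1 i c1 c2 => ?_⟩
  have hbig : N ≤ h i := by
    have s1 : h (d - 1) = h 1 := hG.basic.2.1 _ _ (by omega)
    have s2 : N + 1 ≤ h 1 := (Nat.le_self_pow (by omega) _).trans h1
    rcases Nat.lt_or_ge i (d - 1) with c3 | c3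
    · have s3 := chain_pow (d := d) (T := 1) (h := h) le_rfl
        (fun k k1 _ => by rw [one_pow, one_mul]; exact hG.pow_le k k1) c1 (d - 1) c3 (by omega)
      rw [one_pow, one_mul, s1] at s3
      have s4 : (N + 1) ^ (d - 1) ≤ h i ^ (d - 1) :=
        (Nat.pow_le_pow_right (by omega) (by omega)).trans
          (h1.trans ((Nat.le_self_pow (by omega) _).trans s3))
      have := (Nat.pow_le_pow_iff_left (by omega)).1 s4
      omega
    · rw [show i = d - 1 by omega, s1]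
      omega
  obtain ⟨a, rfl⟩ : ∃ a, i = a + 1 := ⟨i - 1, by omega⟩
  obtain ⟨b, hb⟩ : ∃ b, d - (a + 1) = b + 1 := ⟨d - a - 2, by omega⟩
  obtain ⟨x, y, n, n', p1, p2, p3, p4, p5⟩ := hG.valley a b (by omega)
  have hH := hN.trans (Nat.cast_le.2 hbig)
  have q1 := side_bound (k := b + 1) (by omega) e0 (by linarith) hH (by omega) p2 p4
  have q2 := side_bound (k := a + 1) (by omega) e0 (by linarith) hH (by omega) p3 p5
  have q3 : (x : ℝ) + y ≤ h (a + 1) := by exact_mod_cast p1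
  have q4 := alpha_nonneg (b + 1) (Nat.cast_nonneg (h a))
  have q5 := alpha_nonneg (a + 1) (Nat.cast_nonneg (h (a + 2)))
  rw [hb, Nat.add_sub_cancel]
  change (1 - ε) * (alpha (a + 1) (h (a + 2)) + _) ≤ _
  refine le_of_mul_le_mul_left ?_ (by positivity : 0 < 1 + 2 * e)
  have q6 : (1 + 2 * e) * (1 - ε) ≤ 1 - e := by nlinarith
  have q7 := mul_le_mul_of_nonneg_right q6 (add_nonneg q5 q4)
  rw [← mul_assoc]
  linarith

end Pool.Agent.MP_708e57_al
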